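import Pool.Agent.R476.OR.Stm

/-!
# OR-C: integration by parts for sums of convex functions (project OR of helper476, by helper634)
-/

set_option autoImplicit false

namespace Pool.Agent.R634.ORC

open MeasureTheory Set Filter Topology
open scoped ENNReal InnerProductSpace
open Pool.Agent.W695.KH (Eu)
open Pool.Agent.Y506.RG (ND)
open Pool.Agent.R476.OR

theorem exp_SV {n : ℕ} (V : Fin n → ℝ → ℝ) (x : Eu (Fin n)) :
    Real.exp (-SV V x) = ∏ i, Real.exp (-V i (x i)) := by
  unfold SV
  rw [← Finset.sum_neg_distrib, Real.exp_sum]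

theorem cont_coord {n : ℕ} (i : Fin n) : Continuous fun x : Eu (Fin n) => x i := by
  fun_prop

theorem cont_V {V V' : ℝ → ℝ} (h : NV V V') : Continuous V :=
  continuous_iff_continuousAt.2 fun t => (h.cv.der t).continuousAt

theorem cont_SV {n : ℕ} {V V' : Fin n → ℝ → ℝ} (hV : ∀ i, NV (V i) (V' i)) :
    Continuous fun x : Eu (Fin n) => SV V x := by
  unfold SV
  exact continuous_finsetSum _ fun i _ => (cont_V (hV i)).comp (cont_coord i)

theorem int_one (h2 : S_TWO) {n : ℕ} {V V' : Fin n → ℝ → ℝ} (hV : ∀ i, NV (V i) (V' i))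
    (i : Fin n) (φ : ℝ → ℝ) (hc : Continuous φ)
    (hi : Integrable fun t => φ t ^ 2 * Real.exp (-V i t)) :
    Integrable fun x : Eu (Fin n) => φ (x i) * Real.exp (-SV V x) := by
  classical
  have gen : ∀ ψ : ℝ → ℝ, Continuous ψ → (Integrable fun t => ψ t ^ 2 * Real.exp (-V i t)) →
      Integrable fun x : Eu (Fin n) => ψ (x i) ^ 2 * Real.exp (-SV V x) := by
    intro ψ hψ hψi
    have A := (h2 n (fun j t => Real.exp (-V j t)) (fun j => if j = i then ψ else fun _ => 0)
      (fun j => (hV j).nd.cont) (fun j s => (Real.exp_pos _).le) (fun j => (hV j).nd.int0)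
      (fun j => (hV j).nd.mass) (fun j => by
        by_cases h : j = i
        · simp only [h, if_true]; exact hψ
        · simp only [h, if_false]; exact continuous_const)
      (fun j => by
        by_cases h : j = i
        · subst h
          simp only [if_true]
          exact hψi
        · simp only [h, if_false]
          simp)).1
    refine A.congr (Eventually.of_forall fun x => ?_)
    simp only
    rw [exp_SV, Finset.sum_eq_single i]
    · simp
    · intro j _ hj
      simp [hj]
    · intro h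
      exact absurd (Finset.mem_univ i) h
  have hA := gen φ hc hi
  have hB := gen (fun _ => 1) continuous_const (by simpa using (hV i).nd.int0)
  have hm : Continuous fun x : Eu (Fin n) => φ (x i) * Real.exp (-SV V x) :=
    (hc.comp (cont_coord i)).mul (Real.continuous_exp.comp (cont_SV hV).neg)
  refine (hA.add hB).mono' hm.aestronglyMeasurable (Eventually.of_forall fun x => ?_)
  rw [Real.norm_eq_abs, abs_mul, abs_of_pos (Real.exp_pos _)]
  simp only [Pi.add_apply, one_pow, one_mul]
  have h3 : |φ (x i)| ≤ φ (x i) ^ 2 + 1 := by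
    rw [abs_le]
    constructor <;> nlinarith [sq_nonneg (φ (x i) + 1 / 2), sq_nonneg (φ (x i) - 1 / 2)]
  have h4 := mul_le_mul_of_nonneg_right h3 (Real.exp_pos (-SV V x)).le
  linarith

theorem sgm_pos (r : ℝ) : 0 ≤ sgm r := by
  unfold sgm
  positivity

theorem sgm_le (r : ℝ) : sgm r ≤ 1 := by
  unfold sgm
  rw [div_le_one (by positivity)]
  linarith [Real.exp_pos (-r)]

theorem sgd_pos (r : ℝ) : 0 ≤ sgd r := by
  unfold sgd
  positivity

theorem sgd_le (r : ℝ) : sgd r ≤ 1 := by
  unfold sgd
  rw [div_le_one (by positivity)]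
  nlinarith [Real.exp_pos (-r)]

theorem sgm_der (r : ℝ) : HasDerivAt sgm (sgd r) r := by
  unfold sgm sgd
  have h1 : HasDerivAt (fun r : ℝ => 1 + Real.exp (-r)) (-Real.exp (-r)) r := by
    have := ((hasDerivAt_neg r).exp).const_add 1
    simpa using this
  have h2 : (1 + Real.exp (-r)) ≠ 0 := by positivity
  have h3 := (hasDerivAt_const r (1 : ℝ)).div h1 h2
  convert! h3 using 1
  ring

theorem cont_sgm : Continuous sgm :=
  continuous_iff_continuousAt.2 fun t => (sgm_der t).continuousAt

theorem cont_sgd : Continuous sgd := by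
  unfold sgd
  refine Continuous.div (by fun_prop) (by fun_prop) fun r => ?_
  positivity

/-- The coordinate vector. -/
noncomputable def e {n : ℕ} (i : Fin n) : Eu (Fin n) := EuclideanSpace.single i (1 : ℝ)

theorem e_apply {n : ℕ} (i j : Fin n) (x : Eu (Fin n)) (t : ℝ) :
    (x + t • e i) j = x j + t * (if j = i then 1 else 0) := by
  unfold e
  simp

theorem SV_line {n : ℕ} (V : Fin n → ℝ → ℝ) (i : Fin n) (x : Eu (Fin n)) (t : ℝ) :
    SV V (x + t • e i) = (SV V x - V i (x i)) + V i (x i + t) := by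
  have h : SV V (x + t • e i) - SV V x = V i (x i + t) - V i (x i) := by
    unfold SV
    rw [← Finset.sum_sub_distrib, Finset.sum_eq_single i]
    · rw [e_apply]
      simp
    · intro j _ hj
      rw [e_apply]
      simp [hj]
    · intro h
      exact absurd (Finset.mem_univ i) h
  linarith

theorem line_SV {n : ℕ} {V V' : Fin n → ℝ → ℝ} (hV : ∀ i, NV (V i) (V' i)) (i : Fin n)
    (x : Eu (Fin n)) : HasDerivAt (fun t : ℝ => SV V (x + t • e i)) (V' i (x i)) 0 := by
  have h1 : HasDerivAt (fun t : ℝ => V i (x i + t)) (V' i (x i)) 0 := by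
    have := (hV i).cv.der (x i)
    apply HasDerivAt.comp_const_add (x i) 0
    simpa using this
  have h2 := h1.const_add (SV V x - V i (x i))
  refine h2.congr_of_eventuallyEq (Eventually.of_forall fun t => ?_)
  exact SV_line V i x t

theorem line_F {n : ℕ} {C : ℝ} {V V' v : Fin n → ℝ → ℝ}
    (hF : ∀ i, FD C (V i) (V' i) (v i)) (i : Fin n) (x : Eu (Fin n)) :
    HasLineDerivAt ℝ (fun y : Eu (Fin n) => v i (y i) * Real.exp (-SV V y))
      (-((V i (x i) - mV (V i)) * Real.exp (-SV V x))) x (e i) := by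
  unfold HasLineDerivAt
  have h1 : HasDerivAt (fun t : ℝ => v i (x i + t) * Real.exp (-V i (x i + t)))
      (-((V i (x i) - mV (V i)) * Real.exp (-V i (x i)))) 0 := by
    have := (hF i).der (x i)
    apply HasDerivAt.comp_const_add (f := fun s => v i s * Real.exp (-V i s)) (x i) 0
    simpa using this
  have h2 := h1.mul_const (Real.exp (-(SV V x - V i (x i))))
  have h3 : -((V i (x i) - mV (V i)) * Real.exp (-SV V x)) =
      -((V i (x i) - mV (V i)) * Real.exp (-V i (x i))) * Real.exp (-(SV V x - V i (x i))) := by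
    have : Real.exp (-SV V x) = Real.exp (-V i (x i)) * Real.exp (-(SV V x - V i (x i))) := by
      rw [← Real.exp_add]
      congr 1
      ring
    rw [this]
    ring
  rw [h3]
  refine h2.congr_of_eventuallyEq (Eventually.of_forall fun t => ?_)
  simp only
  have h4 : (x + t • e i) i = x i + t := by
    rw [e_apply]
    simp
  rw [h4, SV_line, mul_assoc, ← Real.exp_add]
  congr 2
  ring

theorem line_G {n : ℕ} {V V' : Fin n → ℝ → ℝ} (hV : ∀ i, NV (V i) (V' i))
    {U : Eu (Fin n) → ℝ} (hU : ContDiff ℝ 1 U) (E : ℝ) (i : Fin n) (x : Eu (Fin n)) :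
    HasLineDerivAt ℝ (fun y : Eu (Fin n) => U y * sgm (SV V y - E))
      (fderiv ℝ U x (e i) * sgm (SV V x - E) + U x * (sgd (SV V x - E) * V' i (x i))) x (e i) := by
  unfold HasLineDerivAt
  have h0 : x + (0 : ℝ) • e i = x := by simp
  have h1 : HasDerivAt (fun t : ℝ => U (x + t • e i)) (fderiv ℝ U x (e i)) 0 :=
    ((hU.differentiable (by norm_num)) x).hasFDerivAt.hasLineDerivAt (e i)
  have h2 : HasDerivAt (fun t : ℝ => SV V (x + t • e i) - E) (V' i (x i)) 0 :=
    (line_SV hV i x).sub_const E
  have h3 : HasDerivAt (fun t : ℝ => sgm (SV V (x + t • e i) - E))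
      (sgd (SV V x - E) * V' i (x i)) 0 := by
    have h4 : HasDerivAt sgm (sgd (SV V x - E)) (SV V (x + (0 : ℝ) • e i) - E) := by
      rw [h0]
      exact sgm_der _
    exact HasDerivAt.comp (h₂ := sgm) (h := fun t : ℝ => SV V (x + t • e i) - E) (0 : ℝ) h4 h2
  have h5 := h1.mul h3
  simp only [h0] at h5
  exact h5

/-- OR-C. -/
theorem ibp (h2 : S_TWO) : S_IBP := by
  intro n C V V' v hV hV4 hF U B l E hU hB hl
  have hUc : Continuous U := hU.continuous
  have hdU : Continuous fun x => fderiv ℝ U x := hU.continuous_fderiv (by norm_num)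
  have hSc : Continuous fun x : Eu (Fin n) => SV V x := cont_SV hV
  have hmc : Continuous fun x : Eu (Fin n) => sgm (SV V x - E) :=
    cont_sgm.comp (hSc.sub continuous_const)
  have hdc : Continuous fun x : Eu (Fin n) => sgd (SV V x - E) :=
    cont_sgd.comp (hSc.sub continuous_const)
  have hB0 : 0 ≤ B := (abs_nonneg _).trans (hB 0)
  -- the three basic integrable functions
  have I1 : ∀ i, Integrable fun x : Eu (Fin n) => v i (x i) * Real.exp (-SV V x) := fun i =>
    int_one h2 hV i (v i) (hF i).cont (hF i).i1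
  have I2 : ∀ i, Integrable fun x : Eu (Fin n) =>
      (V' i (x i) * v i (x i)) * Real.exp (-SV V x) := fun i =>
    int_one h2 hV i (fun t => V' i t * v i t) ((hV i).cv.cont.mul (hF i).cont) (hF i).i2
  have I3 : ∀ i, Integrable fun x : Eu (Fin n) =>
      (V i (x i) - mV (V i)) * Real.exp (-SV V x) := fun i => by
    refine int_one h2 hV i (fun t => V i t - mV (V i)) ((cont_V (hV i)).sub continuous_const) ?_
    have hm : Continuous fun t => (V i t - mV (V i)) ^ 2 * Real.exp (-V i t) :=
      (((cont_V (hV i)).sub continuous_const).pow 2).mul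
        (Real.continuous_exp.comp (cont_V (hV i)).neg)
    have hD : Integrable fun t => V i t ^ 4 * Real.exp (-V i t) +
        (1 + 2 * mV (V i) ^ 2) * Real.exp (-V i t) :=
      (hV4 i).add ((hV i).nd.int0.const_mul _)
    refine hD.mono' hm.aestronglyMeasurable (Eventually.of_forall fun t => ?_)
    rw [Real.norm_eq_abs, abs_of_nonneg (by positivity)]
    have h3 : (V i t - mV (V i)) ^ 2 ≤ V i t ^ 4 + (1 + 2 * mV (V i) ^ 2) := by
      nlinarith [sq_nonneg (V i t + mV (V i)), sq_nonneg (V i t ^ 2 - 1)]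
    have h4 := mul_le_mul_of_nonneg_right h3 (Real.exp_pos (-V i t)).le
    linarith
  -- bounded multiples
  have J1 : ∀ i, Integrable fun x : Eu (Fin n) =>
      fderiv ℝ U x (e i) * sgm (SV V x - E) * (v i (x i) * Real.exp (-SV V x)) := fun i => by
    refine (I1 i).bdd_mul (c := l * ‖(e i : Eu (Fin n))‖)
      ((hdU.clm_apply continuous_const).mul hmc).aestronglyMeasurable
      (Eventually.of_forall fun x => ?_)
    rw [norm_mul]
    have h3 : ‖fderiv ℝ U x (e i)‖ ≤ l * ‖(e i : Eu (Fin n))‖ :=
      ((fderiv ℝ U x).le_opNorm _).trans (mul_le_mul_of_nonneg_right (hl x) (norm_nonneg _))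
    have h4 : ‖sgm (SV V x - E)‖ ≤ 1 := by
      rw [Real.norm_eq_abs, abs_of_nonneg (sgm_pos _)]
      exact sgm_le _
    calc ‖fderiv ℝ U x (e i)‖ * ‖sgm (SV V x - E)‖ ≤ (l * ‖(e i : Eu (Fin n))‖) * 1 :=
          mul_le_mul h3 h4 (norm_nonneg _) ((norm_nonneg _).trans h3)
      _ = _ := mul_one _
  have J2 : ∀ i, Integrable fun x : Eu (Fin n) =>
      U x * sgd (SV V x - E) * ((V' i (x i) * v i (x i)) * Real.exp (-SV V x)) := fun i => by
    refine (I2 i).bdd_mul (c := B) (hUc.mul hdc).aestronglyMeasurable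
      (Eventually.of_forall fun x => ?_)
    rw [norm_mul]
    have h4 : ‖sgd (SV V x - E)‖ ≤ 1 := by
      rw [Real.norm_eq_abs, abs_of_nonneg (sgd_pos _)]
      exact sgd_le _
    calc ‖U x‖ * ‖sgd (SV V x - E)‖ ≤ B * 1 :=
          mul_le_mul (hB x) h4 (norm_nonneg _) hB0
      _ = _ := mul_one _
  have J3 : ∀ i, Integrable fun x : Eu (Fin n) =>
      U x * sgm (SV V x - E) * ((V i (x i) - mV (V i)) * Real.exp (-SV V x)) := fun i => by
    refine (I3 i).bdd_mul (c := B) (hUc.mul hmc).aestronglyMeasurable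
      (Eventually.of_forall fun x => ?_)
    rw [norm_mul]
    have h4 : ‖sgm (SV V x - E)‖ ≤ 1 := by
      rw [Real.norm_eq_abs, abs_of_nonneg (sgm_pos _)]
      exact sgm_le _
    calc ‖U x‖ * ‖sgm (SV V x - E)‖ ≤ B * 1 :=
          mul_le_mul (hB x) h4 (norm_nonneg _) hB0
      _ = _ := mul_one _
  have J4 : ∀ i, Integrable fun x : Eu (Fin n) =>
      U x * sgm (SV V x - E) * (v i (x i) * Real.exp (-SV V x)) := fun i => by
    refine (I1 i).bdd_mul (c := B) (hUc.mul hmc).aestronglyMeasurable
      (Eventually.of_forall fun x => ?_)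
    rw [norm_mul]
    have h4 : ‖sgm (SV V x - E)‖ ≤ 1 := by
      rw [Real.norm_eq_abs, abs_of_nonneg (sgm_pos _)]
      exact sgm_le _
    calc ‖U x‖ * ‖sgm (SV V x - E)‖ ≤ B * 1 :=
          mul_le_mul (hB x) h4 (norm_nonneg _) hB0
      _ = _ := mul_one _
  -- integration by parts
  have key : ∀ i, ∫ x : Eu (Fin n), U x * sgd (SV V x - E) *
      ((V' i (x i) * v i (x i)) * Real.exp (-SV V x)) =
      (∫ x : Eu (Fin n), U x * sgm (SV V x - E) *
        ((V i (x i) - mV (V i)) * Real.exp (-SV V x))) -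
      ∫ x : Eu (Fin n), fderiv ℝ U x (e i) * sgm (SV V x - E) *
        (v i (x i) * Real.exp (-SV V x)) := by
    intro i
    have hmain := integral_bilinear_hasLineDerivAt_right_eq_neg_left_of_integrable
      (μ := (volume : Measure (Eu (Fin n))))
      (f := fun y : Eu (Fin n) => U y * sgm (SV V y - E))
      (f' := fun x => fderiv ℝ U x (e i) * sgm (SV V x - E) +
        U x * (sgd (SV V x - E) * V' i (x i)))
      (g := fun y : Eu (Fin n) => v i (y i) * Real.exp (-SV V y))
      (g' := fun x => -((V i (x i) - mV (V i)) * Real.exp (-SV V x)))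
      (v := e i) (B := ContinuousLinearMap.mul ℝ ℝ) ?_ ?_ ?_
      (fun x _ => line_G hV hU E i x) (fun x _ => line_F hF i x)
    · simp only [ContinuousLinearMap.mul_apply'] at hmain
      have e1 : ∀ x : Eu (Fin n), U x * sgm (SV V x - E) *
          -((V i (x i) - mV (V i)) * Real.exp (-SV V x)) =
          -(U x * sgm (SV V x - E) * ((V i (x i) - mV (V i)) * Real.exp (-SV V x))) := by
        intro x; ring
      have e2 : ∀ x : Eu (Fin n), (fderiv ℝ U x (e i) * sgm (SV V x - E) +
          U x * (sgd (SV V x - E) * V' i (x i))) * (v i (x i) * Real.exp (-SV V x)) =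
          fderiv ℝ U x (e i) * sgm (SV V x - E) * (v i (x i) * Real.exp (-SV V x)) +
          U x * sgd (SV V x - E) * ((V' i (x i) * v i (x i)) * Real.exp (-SV V x)) := by
        intro x; ring
      simp only [e1, e2] at hmain
      rw [integral_neg, integral_add (J1 i) (J2 i)] at hmain
      linarith
    · simp only [ContinuousLinearMap.mul_apply']
      refine ((J1 i).add (J2 i)).congr (Eventually.of_forall fun x => ?_)
      simp only [Pi.add_apply]
      ring
    · simp only [ContinuousLinearMap.mul_apply']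
      refine (J3 i).neg.congr (Eventually.of_forall fun x => ?_)
      simp only [Pi.neg_apply]
      ring
    · simp only [ContinuousLinearMap.mul_apply']
      exact J4 i
  -- sums
  have T1 : ∀ x : Eu (Fin n), U x * sgd (SV V x - E) * (∑ i, V' i (x i) * v i (x i)) *
      Real.exp (-SV V x) = ∑ i, U x * sgd (SV V x - E) *
      ((V' i (x i) * v i (x i)) * Real.exp (-SV V x)) := by
    intro x
    rw [Finset.mul_sum, Finset.sum_mul]
    refine Finset.sum_congr rfl fun i _ => ?_
    ring
  have T2 : ∀ x : Eu (Fin n), U x * sgm (SV V x - E) * (SV V x - ∑ i, mV (V i)) *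
      Real.exp (-SV V x) = ∑ i, U x * sgm (SV V x - E) *
      ((V i (x i) - mV (V i)) * Real.exp (-SV V x)) := by
    intro x
    have : SV V x - ∑ i, mV (V i) = ∑ i, (V i (x i) - mV (V i)) := by
      unfold SV
      rw [Finset.sum_sub_distrib]
    rw [this, Finset.mul_sum, Finset.sum_mul]
    refine Finset.sum_congr rfl fun i _ => ?_
    ring
  have T3 : ∀ x : Eu (Fin n), sgm (SV V x - E) * fderiv ℝ U x (WithLp.toLp 2 fun i => v i (x i)) *
      Real.exp (-SV V x) = ∑ i, fderiv ℝ U x (e i) * sgm (SV V x - E) *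
        (v i (x i) * Real.exp (-SV V x)) := by
    intro x
    have h3 : (WithLp.toLp 2 fun i => v i (x i) : Eu (Fin n)) = ∑ i, v i (x i) • e i := by
      ext j
      simp [e, Pi.single_apply]
    rw [h3, map_sum, Finset.mul_sum, Finset.sum_mul]
    refine Finset.sum_congr rfl fun i _ => ?_
    rw [map_smul, smul_eq_mul]
    ring
  simp only [T1, T2, T3]
  rw [integral_finsetSum _ fun i _ => J2 i, integral_finsetSum _ fun i _ => J3 i,
    integral_finsetSum _ fun i _ => J1 i, ← Finset.sum_sub_distrib]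
  exact Finset.sum_congr rfl fun i _ => key i

end Pool.Agent.R634.ORC
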