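import Mathlib
import Pool.Agent.R684.VG.Stm

/-!
Derivations of a group with a finite presentation into a permutation module (piece GP-ZD).
-/

set_option autoImplicit false

namespace Pool.Agent.R634.ZD

/-- semidirect product of a module by a group -/
structure WG {L M : Type} [Group L] [AddCommGroup M] [Module ℂ M] (ρ : L →* Module.End ℂ M) where
  g : L
  m : M

namespace WG

variable {L M : Type} [Group L] [AddCommGroup M] [Module ℂ M] (ρ : L →* Module.End ℂ M)

instance : Mul (WG ρ) := ⟨fun a b => ⟨a.g * b.g, a.m + ρ a.g b.m⟩⟩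
instance : One (WG ρ) := ⟨⟨1, 0⟩⟩
instance : Inv (WG ρ) := ⟨fun a => ⟨a.g⁻¹, -(ρ a.g⁻¹ a.m)⟩⟩

instance : Group (WG ρ) := Group.ofLeftAxioms
  (by
    rintro ⟨a, m⟩ ⟨b, n⟩ ⟨c, p⟩
    show (⟨(a * b) * c, (m + ρ a n) + ρ (a * b) p⟩ : WG ρ) = ⟨a * (b * c), m + ρ a (n + ρ b p)⟩
    rw [mul_assoc, map_add, map_mul, Module.End.mul_apply, add_assoc])
  (by
    rintro ⟨a, m⟩
    show (⟨1 * a, 0 + ρ 1 m⟩ : WG ρ) = ⟨a, m⟩
    rw [one_mul, map_one, Module.End.one_apply, zero_add])
  (by
    rintro ⟨a, m⟩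
    show (⟨a⁻¹ * a, -(ρ a⁻¹ m) + ρ a⁻¹ m⟩ : WG ρ) = ⟨1, 0⟩
    rw [inv_mul_cancel, neg_add_cancel])

/-- the projection to the group -/
def pr : WG ρ →* L where
  toFun a := a.g
  map_one' := rfl
  map_mul' _ _ := rfl

end WG

section

variable {X L M : Type} [Group L] [AddCommGroup M] [Module ℂ M]

/-- the homomorphism given by a derivation -/
def homD {G : Type} [Group G] (ρ : L →* Module.End ℂ M) (π : G →* L) (c : G → M)
    (hc : ∀ v w, c (v * w) = c v + ρ (π v) (c w)) : G →* WG ρ :=
  MonoidHom.mk' (fun w => (⟨π w, c w⟩ : WG ρ)) (fun v w => by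
    show (⟨π (v * w), c (v * w)⟩ : WG ρ) = ⟨π v * π w, c v + ρ (π v) (c w)⟩
    rw [map_mul, hc])

lemma uniqD (ρ : L →* Module.End ℂ M) (π : FreeGroup X →* L) (c c' : FreeGroup X → M)
    (hc : ∀ v w, c (v * w) = c v + ρ (π v) (c w)) (hc' : ∀ v w, c' (v * w) = c' v + ρ (π v) (c' w))
    (h : ∀ x, c (FreeGroup.of x) = c' (FreeGroup.of x)) : c = c' := by
  have h1 : homD ρ π c hc = homD ρ π c' hc' := by
    refine FreeGroup.ext_hom _ _ (fun x => ?_)
    show (⟨π (FreeGroup.of x), c (FreeGroup.of x)⟩ : WG ρ) = ⟨π (FreeGroup.of x), c' (FreeGroup.of x)⟩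
    rw [h x]
  funext w
  have h2 : (homD ρ π c hc w).m = (homD ρ π c' hc' w).m := by rw [h1]
  exact h2

lemma exD (ρ : L →* Module.End ℂ M) (π : FreeGroup X →* L) (a : X → M) :
    ∃ c : FreeGroup X → M, (∀ v w, c (v * w) = c v + ρ (π v) (c w)) ∧
      ∀ x, c (FreeGroup.of x) = a x := by
  obtain ⟨Φ, hΦ⟩ : ∃ Φ : FreeGroup X →* WG ρ, ∀ x, Φ (FreeGroup.of x) = ⟨π (FreeGroup.of x), a x⟩ :=
    ⟨FreeGroup.lift (fun x => (⟨π (FreeGroup.of x), a x⟩ : WG ρ)), fun x => by simp⟩
  have h1 : (WG.pr ρ).comp Φ = π := by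
    refine FreeGroup.ext_hom _ _ (fun x => ?_)
    show (Φ (FreeGroup.of x)).g = _
    rw [hΦ x]
  have h2 : ∀ w, (Φ w).g = π w := fun w => by
    have : (WG.pr ρ).comp Φ w = π w := by rw [h1]
    exact this
  refine ⟨fun w => (Φ w).m, fun v w => ?_, fun x => ?_⟩
  · show (Φ (v * w)).m = _
    rw [map_mul, ← h2 v]
    rfl
  · show (Φ (FreeGroup.of x)).m = _
    rw [hΦ x]

end

/-- the permutation representation -/
def rep {L : Type} [Group L] (H : Subgroup L) : L →* Module.End ℂ ((L ⧸ H) → ℂ) where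
  toFun g :=
    { toFun := fun v x => v (g⁻¹ • x)
      map_add' := fun v w => rfl
      map_smul' := fun a v => rfl }
  map_one' := by
    ext v x
    simp
  map_mul' g h := by
    refine LinearMap.ext fun v => funext fun x => ?_
    show v ((g * h)⁻¹ • x) = v (h⁻¹ • (g⁻¹ • x))
    rw [mul_inv_rev, mul_smul]

theorem t_ZD : ∀ (X : Type) [Fintype X] (rels : Finset (FreeGroup X))
    (H : Subgroup (PresentedGroup (rels : Set (FreeGroup X)))) [H.FiniteIndex],
    Fintype.card X * H.index ≤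
      Module.finrank ℂ (Pool.Agent.R684.VG.Zp (PresentedGroup (rels : Set (FreeGroup X))) H)
        + rels.card * H.index := by
  classical
  intro X _ rels H _
  haveI : Finite (PresentedGroup (rels : Set (FreeGroup X)) ⧸ H) := inferInstance
  letI : Fintype (PresentedGroup (rels : Set (FreeGroup X)) ⧸ H) := Fintype.ofFinite _
  have hn : Module.finrank ℂ ((PresentedGroup (rels : Set (FreeGroup X)) ⧸ H) → ℂ) = H.index := by
    rw [Module.finrank_fintype_fun_eq_card, Subgroup.index_eq_card, Nat.card_eq_fintype_card]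
  let π : FreeGroup X →* PresentedGroup (rels : Set (FreeGroup X)) :=
    PresentedGroup.mk (rels : Set (FreeGroup X))
  have hπs : Function.Surjective π := PresentedGroup.mk_surjective _
  have hπr : ∀ r ∈ rels, π r = 1 := fun r hr => PresentedGroup.one_of_mem (by simpa using hr)
  choose cc hcc1 hcc2 using fun e : X → (PresentedGroup (rels : Set (FreeGroup X)) ⧸ H) → ℂ =>
    exD (rep H) π e
  let T2 : (X → (PresentedGroup (rels : Set (FreeGroup X)) ⧸ H) → ℂ) →ₗ[ℂ]
      ({r // r ∈ rels} → (PresentedGroup (rels : Set (FreeGroup X)) ⧸ H) → ℂ) :=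
    { toFun := fun e r => cc e r.1
      map_add' := fun e e' => by
        have h := uniqD (rep H) π (cc (e + e')) (cc e + cc e') (hcc1 _) (fun v w => by
          simp only [Pi.add_apply, hcc1, map_add]
          abel) (fun x => by simp only [Pi.add_apply, hcc2])
        funext r
        rw [h]
        rfl
      map_smul' := fun a e => by
        have h := uniqD (rep H) π (cc (a • e)) (a • cc e) (hcc1 _) (fun v w => by
          simp only [Pi.smul_apply, hcc1, map_smul, smul_add]) (fun x => by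
            simp only [Pi.smul_apply, hcc2])
        funext r
        rw [h]
        rfl }
  let T1 : (Pool.Agent.R684.VG.Zp (PresentedGroup (rels : Set (FreeGroup X))) H) →ₗ[ℂ]
      (X → (PresentedGroup (rels : Set (FreeGroup X)) ⧸ H) → ℂ) :=
    { toFun := fun c x => c.1 (π (FreeGroup.of x))
      map_add' := fun c d => rfl
      map_smul' := fun a c => rfl }
  have hinj : Function.Injective T1 := by
    rw [← LinearMap.ker_eq_bot, LinearMap.ker_eq_bot']
    intro c hc
    have h := uniqD (rep H) π (fun w => c.1 (π w)) 0 (fun v w => by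
      funext x
      show c.1 (π (v * w)) x = c.1 (π v) x + c.1 (π w) ((π v)⁻¹ • x)
      rw [map_mul]
      exact c.2 _ _ _) (fun v w => by simp) (fun x => congrFun hc x)
    apply Subtype.ext
    funext g
    obtain ⟨w, rfl⟩ := hπs g
    exact congrFun h w
  have hle : LinearMap.ker T2 ≤ LinearMap.range T1 := by
    intro e he
    have he' : ∀ r ∈ rels, cc e r = 0 := fun r hr => congrFun (LinearMap.mem_ker.1 he) ⟨r, hr⟩
    have hlift : ∀ w, FreeGroup.lift (fun x => (⟨π (FreeGroup.of x), cc e (FreeGroup.of x)⟩ :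
        WG (rep H))) w = ⟨π w, cc e w⟩ := by
      intro w
      have h1 : FreeGroup.lift (fun x => (⟨π (FreeGroup.of x), cc e (FreeGroup.of x)⟩ :
          WG (rep H))) = homD (rep H) π (cc e) (hcc1 e) := by
        refine FreeGroup.ext_hom _ _ (fun x => ?_)
        rw [FreeGroup.lift_apply_of]
        rfl
      rw [h1]
      rfl
    have hrel : ∀ r ∈ (rels : Set (FreeGroup X)), FreeGroup.lift (fun x => (⟨π (FreeGroup.of x),
        cc e (FreeGroup.of x)⟩ : WG (rep H))) r = 1 := by
      intro r hr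
      have hr' : r ∈ rels := by simpa using hr
      rw [hlift r, hπr r hr', he' r hr']
      rfl
    obtain ⟨Ψ, hΨ⟩ : ∃ Ψ : PresentedGroup (rels : Set (FreeGroup X)) →* WG (rep H),
        ∀ x, Ψ (PresentedGroup.of x) = ⟨π (FreeGroup.of x), cc e (FreeGroup.of x)⟩ :=
      ⟨PresentedGroup.toGroup hrel, fun x => PresentedGroup.toGroup.of hrel⟩
    have h1 : (WG.pr (rep H)).comp Ψ = MonoidHom.id _ := by
      refine PresentedGroup.ext (fun x => ?_)
      show (Ψ (PresentedGroup.of x)).g = _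
      rw [hΨ x]
      rfl
    have h2 : ∀ g, (Ψ g).g = g := fun g => by
      have : (WG.pr (rep H)).comp Ψ g = MonoidHom.id _ g := by rw [h1]
      exact this
    refine ⟨⟨fun g => (Ψ g).m, fun g h x => ?_⟩, ?_⟩
    · show (Ψ (g * h)).m x = (Ψ g).m x + (Ψ h).m (g⁻¹ • x)
      rw [map_mul]
      show (Ψ g).m x + (Ψ h).m ((Ψ g).g⁻¹ • x) = _
      rw [h2 g]
    · funext x
      show (Ψ (PresentedGroup.of x)).m = e x
      rw [hΨ x]
      exact hcc2 e x
  have h3 := T2.finrank_range_add_finrank_ker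
  have h4 : Module.finrank ℂ (LinearMap.range T2) ≤ rels.card * H.index := by
    refine (Submodule.finrank_le _).trans ?_
    rw [Module.finrank_pi_fintype]
    simp [hn]
  have h5 : Module.finrank ℂ (LinearMap.ker T2) ≤ Module.finrank ℂ
      (Pool.Agent.R684.VG.Zp (PresentedGroup (rels : Set (FreeGroup X))) H) := by
    rw [← LinearMap.finrank_range_of_inj hinj]
    exact Submodule.finrank_mono hle
  have h6 : Module.finrank ℂ (X → (PresentedGroup (rels : Set (FreeGroup X)) ⧸ H) → ℂ) =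
      Fintype.card X * H.index := by
    rw [Module.finrank_pi_fintype]
    simp [hn]
  rw [h6] at h3
  omega

end Pool.Agent.R634.ZD
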