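import Mathlib

/-!
# Restricted wreath products `R ≀ A` and conjugacy depth

Common definitions and lemmas for MP_3fb3e0 and MP_9ae5d9.
-/

namespace Pool.Agent.R634

open Finsupp

/-! ## Definitions used in statements -/

/-- Translation of a finitely supported function `A → R` by `b`: `single u r ↦ single (b + u) r`,
i.e. multiplication by `X ^ b` in the group ring `R[A]`. -/
noncomputable def shift {R A : Type*} [AddCommMonoid R] [AddCommGroup A] (b : A) :
    (A →₀ R) →+ (A →₀ R) :=
  Finsupp.mapDomain.addMonoidHom (fun u => b + u)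

/-- The restricted wreath product `R ≀ A = R[A] ⋊ A`: pairs `(lamp, pos)` with
`lamp : A → R` finitely supported and `pos ∈ A`. -/
@[ext]
structure Wreath (R A : Type*) [Zero R] where
  /-- the lamp configuration -/
  lamp : A →₀ R
  /-- the position -/
  pos : A

namespace Wreath

variable {R A : Type*} [AddCommGroup R] [AddCommGroup A]

/-- `(f, b) (f', b') = (f + b • f', b + b')`. -/
noncomputable instance : Mul (Wreath R A) :=
  ⟨fun x y => ⟨x.lamp + shift x.pos y.lamp, x.pos + y.pos⟩⟩

noncomputable instance : One (Wreath R A) := ⟨⟨0, 0⟩⟩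

noncomputable instance : Inv (Wreath R A) := ⟨fun x => ⟨-shift (-x.pos) x.lamp, -x.pos⟩⟩

end Wreath

/-- The ball of radius `n` in the word metric of `G` with respect to `S`: products of at most `n`
elements of `S ∪ S⁻¹`. -/
def ball {G : Type*} [Group G] (S : Set G) (n : ℕ) : Set G :=
  {g | ∃ l : List G, l.length ≤ n ∧ (∀ s ∈ l, s ∈ S ∨ s⁻¹ ∈ S) ∧ l.prod = g}

/-- `depth x y`: the least index of a finite-index normal subgroup `N` such that the images of
`x` and `y` in `G ⧸ N` are not conjugate (`⊤` if there is none). -/
noncomputable def depth {G : Type*} [Group G] (x y : G) : ℕ∞ :=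
  ⨅ (N : Subgroup G) (_ : N.Normal) (_ : N.FiniteIndex)
    (_ : ¬ IsConj (QuotientGroup.mk x : G ⧸ N) (QuotientGroup.mk y : G ⧸ N)), (N.index : ℕ∞)

/-- The conjugacy depth function of `G` with respect to the generating set `S`, with values in
`ℕ∞`. -/
noncomputable def conjDepth {G : Type*} [Group G] (S : Set G) (n : ℕ) : ℕ∞ :=
  ⨆ (x ∈ ball S n) (y ∈ ball S n) (_ : ¬ IsConj x y), depth x y

/-- `f ⪯ g`: there is a natural number `C ≥ 1` with `f n ≤ C g (C n)` for all `n`. -/
def Preceq (f g : ℕ → ℝ) : Prop :=
  ∃ C : ℕ, 1 ≤ C ∧ ∀ n, f n ≤ C * g (C * n)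

/-! ## Basic lemmas -/

section shift

variable {R A : Type*} [AddCommGroup R] [AddCommGroup A]

@[simp] lemma shift_single (b u : A) (r : R) : shift b (single u r) = single (b + u) r := by
  simp [shift]

lemma shift_zero (f : A →₀ R) : shift (0 : A) f = f := by
  have h : (shift (0 : A) : (A →₀ R) →+ (A →₀ R)) = AddMonoidHom.id _ := by
    apply Finsupp.addHom_ext
    intro u r
    simp
  rw [h]; rfl

lemma shift_shift (b c : A) (f : A →₀ R) : shift b (shift c f) = shift (b + c) f := by
  have h : (shift b : (A →₀ R) →+ (A →₀ R)).comp (shift c) = shift (b + c) := by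
    apply Finsupp.addHom_ext
    intro u r
    simp [add_assoc]
  exact DFunLike.congr_fun h f

lemma shift_apply (b u : A) (f : A →₀ R) : shift b f (b + u) = f u := by
  have hinj : Function.Injective (fun u : A => b + u) := add_right_injective b
  exact Finsupp.mapDomain_apply hinj f u

lemma shift_support (b : A) (f : A →₀ R) {v : A} (hv : v ∈ (shift b f).support) :
    ∃ u ∈ f.support, v = b + u := by
  classical
  have h1 : (shift b f).support ⊆ f.support.image (fun u => b + u) := Finsupp.mapDomain_support
  obtain ⟨u, hu, rfl⟩ := Finset.mem_image.mp (h1 hv)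
  exact ⟨u, hu, rfl⟩

end shift

namespace Wreath

variable {R A : Type*} [AddCommGroup R] [AddCommGroup A]

@[simp] lemma mul_lamp (x y : Wreath R A) : (x * y).lamp = x.lamp + shift x.pos y.lamp := rfl
@[simp] lemma mul_pos (x y : Wreath R A) : (x * y).pos = x.pos + y.pos := rfl
@[simp] lemma one_lamp : (1 : Wreath R A).lamp = 0 := rfl
@[simp] lemma one_pos : (1 : Wreath R A).pos = 0 := rfl
@[simp] lemma inv_lamp (x : Wreath R A) : (x⁻¹).lamp = -shift (-x.pos) x.lamp := rfl
@[simp] lemma inv_pos (x : Wreath R A) : (x⁻¹).pos = -x.pos := rfl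

noncomputable instance : Group (Wreath R A) :=
  Group.ofLeftAxioms
    (by
      intro x y z
      apply Wreath.ext
      · simp only [mul_lamp, mul_pos, map_add, shift_shift, add_assoc]
      · simp only [mul_pos, add_assoc])
    (by
      intro x
      apply Wreath.ext
      · simp only [mul_lamp, one_lamp, one_pos, shift_zero, zero_add]
      · simp only [mul_pos, one_pos, zero_add])
    (by
      intro x
      apply Wreath.ext
      · simp only [mul_lamp, inv_lamp, inv_pos, one_lamp, neg_add_cancel]
      · simp only [mul_pos, inv_pos, one_pos, neg_add_cancel])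

end Wreath

end Pool.Agent.R634
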