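import Pool.Agent.R537.VC.Defs

/-!
# Piece VC-HP: the map `hinst` is computable in polynomial time
-/

set_option autoImplicit false

namespace Pool.Agent.NPC.R537VC

open Pool.Agent.NPC Pool.Agent.NPC.ER Pool.Agent.NPC.H670R2

namespace HPx

/-- the token map of the substitution `hvar` -/
def tokH (E U : List ℕ) (t : Tok) : Tok := if t.code.1 = 0 then Tok.var (hvar E U t.code.2) else t

theorem toks_sbT (E U : List ℕ) : ∀ t : Tm, (sbT (hvar E U) t).toks = t.toks.map (tokH E U)
  | .var i => by simp [sbT, Tm.toks, tokH, Tok.code]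
  | .zero => by simp [sbT, Tm.toks, tokH, Tok.code]
  | .one => by simp [sbT, Tm.toks, tokH, Tok.code]
  | .add s t => by simp [sbT, Tm.toks, tokH, Tok.code, toks_sbT E U s, toks_sbT E U t]
  | .neg t => by simp [sbT, Tm.toks, tokH, Tok.code, toks_sbT E U t]
  | .mul s t => by simp [sbT, Tm.toks, tokH, Tok.code, toks_sbT E U s, toks_sbT E U t]

theorem toks_sbF (E U : List ℕ) : ∀ φ : Fm, (sbF (hvar E U) φ).toks = φ.toks.map (tokH E U)
  | .eq s t => by simp [sbF, Fm.toks, tokH, Tok.code, toks_sbT E U s, toks_sbT E U t]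
  | .lt s t => by simp [sbF, Fm.toks, tokH, Tok.code, toks_sbT E U s, toks_sbT E U t]
  | .le s t => by simp [sbF, Fm.toks, tokH, Tok.code, toks_sbT E U s, toks_sbT E U t]
  | .not φ => by simp [sbF, Fm.toks, tokH, Tok.code, toks_sbF E U φ]
  | .and φ ψ => by simp [sbF, Fm.toks, tokH, Tok.code, toks_sbF E U φ, toks_sbF E U ψ]
  | .or φ ψ => by simp [sbF, Fm.toks, tokH, Tok.code, toks_sbF E U φ, toks_sbF E U ψ]

theorem toks_andL (l : List Fm) : (andL l).toks =
    l.flatMap Fm.toks ++ (Fm.le Tm.zero Tm.zero).toks ++ List.replicate l.length Tok.and := by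
  induction l with
  | nil => simp [andL]
  | cons a l ih =>
      change a.toks ++ (andL l).toks ++ [Tok.and] = _
      rw [ih]
      simp [List.replicate_succ']

theorem orL_eq (l : List Fm) : orL l = disj l := by
  induction l with
  | nil => rfl
  | cons a l ih =>
    show Fm.or a (orL l) = Fm.or a (disj l)
    rw [ih]

section

variable {α β : Type} [TEnc α] [TEnc β]

theorem poly_idxOf [DecidableEq β] {l : α → List β} {b : α → β} (hl : Poly l) (hb : Poly b) :
    Poly (fun a => (l a).idxOf (b a)) := by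
  obtain ⟨r, hr⟩ := hl.sz_le
  have key : ∀ (b : β) (l : List β),
      l.foldr (fun x acc => if x = b then 0 else acc + 1) 0 = l.idxOf b := by
    intro b l
    induction l with
    | nil => rfl
    | cons x l ih =>
      rw [List.foldr_cons, ih, List.idxOf_cons]
      by_cases h : x = b
      · simp [h]
      · have h' : (x == b) = false := by simpa using h
        simp [h, h']
  refine (Poly.foldr (l := l) (s := fun _ => 0)
    (F := fun a x acc => if x = b a then 0 else acc + 1) hl (Poly.const _)
    (Poly.ite (Poly.decide_eq (Poly.fst (Poly.snd Poly.id)) (hb.comp (Poly.fst Poly.id)))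
      (Poly.const 0) (Poly.succ (Poly.snd (Poly.snd Poly.id))))
      (Polynomial.C 4 * r + Polynomial.C 1) ?_).congr
    fun a => key (b a) (l a)
  intro a k _
  rw [key]
  have h1 := List.idxOf_le_length (l := (l a).drop k) (a := b a)
  have h2 := sz_nat_le (((l a).drop k).idxOf (b a))
  have h3 := Poly.size_le_self (((l a).drop k).idxOf (b a))
  have h4 := length_lt_sz (l a)
  have h5 := hr a
  simp only [List.length_drop] at h1
  simp only [Polynomial.eval_add, Polynomial.eval_mul, Polynomial.eval_C]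
  omega

theorem poly_hvar {E U : α → List ℕ} {i : α → ℕ} (hE : Poly E) (hU : Poly U) (hi : Poly i) :
    Poly (fun a => hvar (E a) (U a) (i a)) := by
  have hl : Poly (fun a => (E a).length + 1) := Poly.succ (Poly.length hE)
  refine Poly.ite (Poly.decide_mem hi hE) (poly_idxOf hE hi)
    (Poly.ite (Poly.decide_mem hi hU) ?_ ?_)
  · exact Poly.add hl (Poly.add (Poly.mul (Poly.const 3) (poly_idxOf hU hi)) (Poly.const 1))
  · exact Poly.add hl (Poly.add (Poly.mul (Poly.const 3) hi) (Poly.const 2))

theorem poly_tokH {E U : α → List ℕ} {t : α → Tok} (hE : Poly E) (hU : Poly U) (ht : Poly t) :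
    Poly (fun a => tokH (E a) (U a) (t a)) := by
  have h0 := poly_tok_code ht
  have hi := Poly.snd h0
  exact Poly.ite (Poly.decide_eq (Poly.fst h0) (Poly.const 0)) (poly_tok (poly_hvar hE hU hi)) ht

theorem poly_sbF {E U : α → List ℕ} {φ : α → Fm} (hE : Poly E) (hU : Poly U) (hφ : Poly φ) :
    Poly (fun a => sbF (hvar (E a) (U a)) (φ a)) := by
  refine fm_of_toks (Poly.congr (f := fun a => (φ a).toks.map (tokH (E a) (U a))) ?_
    fun a => (toks_sbF _ _ _).symm)
  exact Poly.map (F := fun a t => tokH (E a) (U a) t) (fm_toks hφ)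
    (poly_tokH (hE.comp (Poly.fst Poly.id)) (hU.comp (Poly.fst Poly.id)) (Poly.snd Poly.id))

theorem poly_andL {l : α → List Fm} (hl : Poly l) : Poly (fun a => andL (l a)) := by
  refine fm_of_toks (Poly.congr (f := fun a => (l a).flatMap Fm.toks ++
    (Fm.le Tm.zero Tm.zero).toks ++ List.replicate (l a).length Tok.and) ?_
    fun a => (toks_andL _).symm)
  refine Poly.append (Poly.append (Poly.flatMap (F := fun _ φ => Fm.toks φ) hl
    (fm_toks (Poly.snd Poly.id))) (Poly.const _)) (poly_replicate hl _)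

theorem poly_orL {l : α → List Fm} (hl : Poly l) : Poly (fun a => orL (l a)) :=
  (poly_disj hl).congr fun a => (orL_eq _).symm

theorem poly_is0 {i : α → ℕ} (hi : Poly i) : Poly (fun a => is0 (i a)) :=
  poly_eq (poly_tvar hi) (Poly.const _)

theorem poly_is1 {i : α → ℕ} (hi : Poly i) : Poly (fun a => is1 (i a)) :=
  poly_eq (poly_tvar hi) (Poly.const _)

theorem poly_hb {E : α → List ℕ} {j : α → ℕ} (hE : Poly E) (hj : Poly j) :
    Poly (fun a => hb (E a) (j a)) :=
  Poly.add (Poly.succ (Poly.length hE)) (Poly.add (Poly.mul (Poly.const 3) hj) (Poly.const 1))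

theorem poly_unitsR {β : Type} [TEnc β] {l : α → List β} (hl : Poly l) :
    Poly (fun a => List.replicate ((l a).length + 1) ()) :=
  (Poly.cons (Poly.const ()) (poly_replicate hl ())).congr fun a => by
    simp [List.replicate_succ]

end

end HPx

open HPx in
/-- piece VC-HP -/
theorem t_HP : S_HP := by
  have hE : Poly (fun p : Sen => p.1) := Poly.fst Poly.id
  have hU : Poly (fun p : Sen => p.2.1) := Poly.fst (Poly.snd Poly.id)
  have hφ : Poly (fun p : Sen => p.2.2) := Poly.snd (Poly.snd Poly.id)
  have uE : UPoly (fun p : Sen => p.1.length) := UPoly.length hE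
  have uU : UPoly (fun p : Sen => p.2.1.length) := UPoly.length hU
  have hr : Poly (fun p : Sen => List.range (p.2.1.length + 1)) := by
    refine (Poly.append (UPoly.range uU) (Poly.cons (Poly.length hU) (Poly.const ([] : List ℕ)))).congr
      fun p => ?_
    rw [List.range_succ]
  have hE' : Poly (fun q : Sen × ℕ => q.1.1) := Poly.fst (Poly.fst Poly.id)
  have hj : Poly (fun q : Sen × ℕ => q.2) := Poly.snd Poly.id
  have hhb : Poly (fun q : Sen × ℕ => hb q.1.1 q.2) := poly_hb hE' hj
  have p1 : Poly (fun p : Sen => (List.range (p.2.1.length + 1)).map fun j =>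
      Fm.or (is0 (hb p.1 j)) (is1 (hb p.1 j))) :=
    Poly.map (F := fun (p : Sen) j => Fm.or (is0 (hb p.1 j)) (is1 (hb p.1 j))) hr
      (poly_or (poly_is0 hhb) (poly_is1 hhb))
  have p2 : Poly (fun p : Sen => (List.range p.1.length).map fun e =>
      Fm.eq (Tm.var e) (Tm.var (p.1.length + 1 + 3 * e))) :=
    Poly.map (F := fun (p : Sen) e => Fm.eq (Tm.var e) (Tm.var (p.1.length + 1 + 3 * e)))
      (UPoly.range uE)
      (poly_eq (poly_tvar hj) (poly_tvar (Poly.add (Poly.succ (Poly.length hE'))
        (Poly.mul (Poly.const 3) hj))))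
  have p3 : Poly (fun p : Sen => (List.range (p.2.1.length + 1)).map fun j =>
      Fm.and (Fm.eq (Tm.var p.1.length) (natTm j)) (is1 (hb p.1 j))) :=
    Poly.map (F := fun (p : Sen) j =>
      Fm.and (Fm.eq (Tm.var p.1.length) (natTm j)) (is1 (hb p.1 j))) hr
      (poly_and (poly_eq (poly_tvar (Poly.length hE')) (poly_natTm hj)) (poly_is1 hhb))
  have p4 : Poly (fun p : Sen => Fm.or (is0 (hb p.1 p.2.1.length)) (sbF (hvar p.1 p.2.1) p.2.2)) :=
    poly_or (poly_is0 (poly_hb hE (Poly.length hU))) (poly_sbF hE hU hφ)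
  exact Poly.pair (poly_and (poly_andL p1) (poly_and (poly_andL p2) (poly_and (poly_orL p3) p4)))
    (Poly.pair (poly_unitsR hE) (poly_unitsR hU))

end Pool.Agent.NPC.R537VC
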