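import Pool.Agent.R537.VC.Defs

/-!
Boolean universal quantifiers by real ones: the sentence and its relativization.
-/

set_option autoImplicit false

namespace Pool.Agent.NPC.R537VC

open Pool.Agent.NPC Pool.Agent.NPC.ER

/-- The disjunction of a list holds if and only if one of its members holds. -/
lemma orL_holds (v : ℕ → ℝ) (l : List Fm) : (orL l).Holds v ↔ ∃ φ ∈ l, φ.Holds v := by
  induction l with
  | nil => simp [orL, Fm.Holds]
  | cons a l ih => simp [orL, Fm.Holds, ih]

lemma guard_holds (E U : List ℕ) (v : ℕ → ℝ) :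
    (orL ((U.filter fun u => decide (u ∉ E)).map fun u =>
      Fm.not (Fm.or (is0 u) (is1 u)))).Holds v ↔ ∃ u ∈ U, u ∉ E ∧ ¬ (v u = 0 ∨ v u = 1) := by
  rw [orL_holds]
  constructor
  · rintro ⟨φ, hφ, h⟩
    obtain ⟨u, hu, rfl⟩ := List.mem_map.1 hφ
    obtain ⟨hu1, hu2⟩ := List.mem_filter.1 hu
    exact ⟨u, hu1, by simpa using hu2, h⟩
  · rintro ⟨u, hu, hE, h⟩
    exact ⟨_, List.mem_map.2 ⟨u, List.mem_filter.2 ⟨hu, by simpa using hE⟩, rfl⟩, h⟩

lemma mix3_U {E U : List ℕ} {u : ℕ} (x y z : ℕ → ℝ) (hE : u ∉ E) (hU : u ∈ U) :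
    mix3 E U x y z u = y u := by
  simp [mix3, hE, hU]

theorem t_RC : S_RC := by
  rintro ⟨E, U, φ⟩
  constructor
  · rintro ⟨x, hx⟩
    refine ⟨x, fun y => ?_⟩
    by_cases hy : ∃ u ∈ U, u ∉ E ∧ ¬ (y u = 0 ∨ y u = 1)
    · obtain ⟨u, hu, hE, h⟩ := hy
      refine ⟨fun _ => 0, Or.inl ?_⟩
      refine (guard_holds E U _).2 ⟨u, hu, hE, ?_⟩
      change ¬ (mix3 E U x y (fun _ => 0) u = 0 ∨ mix3 E U x y (fun _ => 0) u = 1)
      rw [mix3_U x y _ hE hu]
      exact h
    · obtain ⟨z, hz⟩ := hx (fun u => decide (y u = 1))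
      refine ⟨z, Or.inr ?_⟩
      have hm : mix3 E U x (fun i => bre (decide (y i = 1))) z = mix3 E U x y z := by
        funext i
        unfold mix3
        by_cases hE : i ∈ E
        · simp only [if_pos hE]
        · by_cases hU : i ∈ U
          · simp only [if_neg hE, if_pos hU]
            have h1 : y i = 0 ∨ y i = 1 := by
              by_contra hc
              exact hy ⟨i, hU, hE, hc⟩
            rcases h1 with h1 | h1 <;> simp [bre, h1]
          · simp only [if_neg hE, if_neg hU]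
      show φ.Holds (mix3 E U x y z)
      rw [← hm]
      exact hz
  · rintro ⟨x, hx⟩
    refine ⟨x, fun b => ?_⟩
    obtain ⟨z, hz⟩ := hx (fun i => bre (b i))
    refine ⟨z, ?_⟩
    rcases hz with hz | hz
    · exfalso
      obtain ⟨u, hu, hE, h⟩ := (guard_holds E U _).1 hz
      apply h
      change mix3 E U x (fun i => bre (b i)) z u = 0 ∨ mix3 E U x (fun i => bre (b i)) z u = 1
      rw [mix3_U x _ z hE hu]
      cases b u <;> simp [bre]
    · exact hz

end Pool.Agent.NPC.R537VC
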