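import Mathlib
import Pool.Agent.R634.Wreath

/-!
# Separating non-conjugate elements of `R ≀ A`
-/

set_option linter.unusedSectionVars false

namespace Pool.Agent.R634

open Finsupp

section map

variable {R A R' A' : Type*} [AddCommGroup R] [AddCommGroup A] [AddCommGroup R'] [AddCommGroup A']

/-- The additive map `R[A] → R'[A']` induced by `q : R → R'` and `Φ : A → A'`. -/
noncomputable def lmap (q : R →+ R') (Φ : A →+ A') : (A →₀ R) →+ (A' →₀ R') :=
  (Finsupp.mapDomain.addMonoidHom Φ).comp (Finsupp.mapRange.addMonoidHom q)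

@[simp] lemma lmap_single (q : R →+ R') (Φ : A →+ A') (u : A) (r : R) :
    lmap q Φ (single u r) = single (Φ u) (q r) := by
  simp [lmap]

lemma lmap_shift (q : R →+ R') (Φ : A →+ A') (b : A) (f : A →₀ R) :
    lmap q Φ (shift b f) = shift (Φ b) (lmap q Φ f) := by
  have h : (lmap q Φ).comp (shift b) = (shift (Φ b)).comp (lmap q Φ) := by
    apply Finsupp.addHom_ext
    intro u r
    simp
  exact DFunLike.congr_fun h f

/-- The homomorphism `R ≀ A → R' ≀ A'` induced by `q : R → R'` and `Φ : A → A'`. -/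
noncomputable def wmap (q : R →+ R') (Φ : A →+ A') : Wreath R A →* Wreath R' A' where
  toFun x := ⟨lmap q Φ x.lamp, Φ x.pos⟩
  map_one' := by
    apply Wreath.ext <;> simp
  map_mul' x y := by
    apply Wreath.ext
    · simp [lmap_shift]
    · simp

lemma lmap_apply [DecidableEq A'] (q : R →+ R') (Φ : A →+ A') (g : A →₀ R) (y : A') :
    lmap q Φ g y = q (∑ v ∈ g.support with Φ v = y, g v) := by
  have h1 : lmap q Φ g = ∑ v ∈ g.support, single (Φ v) (q (g v)) := by
    conv_lhs => rw [← Finsupp.sum_single g, Finsupp.sum, map_sum]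
    simp
  rw [h1, Finsupp.finsetSum_apply, Finset.sum_filter, map_sum]
  refine Finset.sum_congr rfl fun v _ => ?_
  rw [Finsupp.single_apply]
  split_ifs <;> simp

lemma lmap_support (q : R →+ R') (Φ : A →+ A') (g : A →₀ R) {y : A'}
    (hy : lmap q Φ g y ≠ 0) : ∃ v ∈ g.support, Φ v = y := by
  classical
  by_contra h
  push Not at h
  apply hy
  rw [lmap_apply]
  have : (g.support.filter (fun v => Φ v = y)) = ∅ := by
    apply Finset.filter_eq_empty_iff.mpr
    intro v hv
    exact h v hv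
  rw [this, Finset.sum_empty, map_zero]

end map

section conj

variable {R A : Type*} [AddCommGroup R] [AddCommGroup A]

/-- Coset sums: the image of `g` in `R[A / ⟨b⟩]`. -/
noncomputable def cos (b : A) : (A →₀ R) →+ ((A ⧸ AddSubgroup.zmultiples b) →₀ R) :=
  lmap (AddMonoidHom.id R) (QuotientAddGroup.mk' (AddSubgroup.zmultiples b))

/-- The subgroup `(1 - X ^ b) R[A]`. -/
noncomputable def idl (R : Type*) {A : Type*} [AddCommGroup R] [AddCommGroup A] (b : A) :
    AddSubgroup (A →₀ R) :=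
  (AddMonoidHom.id (A →₀ R) - shift b).range

lemma mem_idl {b : A} {g : A →₀ R} : g ∈ idl R b ↔ ∃ h, h - shift b h = g := by
  simp [idl, AddMonoidHom.mem_range]

lemma single_sub_mem (b u : A) (r : R) (t : ℤ) :
    single (t • b + u) r - single u r ∈ idl R b := by
  induction t using Int.induction_on with
  | zero => simp [zero_mem]
  | succ i ih =>
    have h1 : single (b + ((i : ℤ) • b + u)) r - single ((i : ℤ) • b + u) r ∈ idl R b := by
      rw [← neg_sub]
      apply neg_mem
      exact mem_idl.mpr ⟨single ((i : ℤ) • b + u) r, by simp⟩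
    have h2 := add_mem h1 ih
    have h3 : ((i : ℤ) + 1) • b + u = b + ((i : ℤ) • b + u) := by
      rw [add_smul, one_smul]; abel
    rw [h3]
    simpa using h2
  | pred i ih =>
    have h1 : single (b + ((-(i : ℤ) - 1) • b + u)) r - single ((-(i : ℤ) - 1) • b + u) r
        ∈ idl R b := by
      rw [← neg_sub]
      apply neg_mem
      exact mem_idl.mpr ⟨single ((-(i : ℤ) - 1) • b + u) r, by simp⟩
    have h3 : b + ((-(i : ℤ) - 1) • b + u) = (-(i : ℤ)) • b + u := by
      rw [sub_smul, one_smul]; abel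
    rw [h3] at h1
    have h2 := sub_mem ih h1
    simpa using h2

lemma mem_idl_of_cos_eq_zero {b : A} {g : A →₀ R} (hg : cos b g = 0) : g ∈ idl R b := by
  classical
  -- a section of the quotient map
  let σ : (A ⧸ AddSubgroup.zmultiples b) → A := Quotient.out
  have hσ : ∀ ξ, (QuotientAddGroup.mk (σ ξ) : A ⧸ AddSubgroup.zmultiples b) = ξ :=
    fun ξ => Quotient.out_eq ξ
  let τ : ((A ⧸ AddSubgroup.zmultiples b) →₀ R) →+ (A →₀ R) :=
    Finsupp.mapDomain.addMonoidHom σ
  have key : ∀ g : A →₀ R, g - τ (cos b g) ∈ idl R b := by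
    intro g
    induction g using Finsupp.induction_linear with
    | zero => simp [zero_mem]
    | add f g hf hg =>
      have := add_mem hf hg
      rw [map_add, map_add]
      convert this using 1
      abel
    | single u r =>
      have h1 : τ (cos b (single u r)) = single (σ (QuotientAddGroup.mk u)) r := by
        simp [τ, cos]
      rw [h1]
      have h2 : (QuotientAddGroup.mk (σ (QuotientAddGroup.mk u)) :
          A ⧸ AddSubgroup.zmultiples b) = QuotientAddGroup.mk u := hσ _
      rw [QuotientAddGroup.eq] at h2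
      obtain ⟨t, ht⟩ := AddSubgroup.mem_zmultiples_iff.mp h2
      have h3 : u = t • b + σ (QuotientAddGroup.mk u) := by
        rw [ht]; abel
      have h4 := single_sub_mem b (σ (QuotientAddGroup.mk u)) r t
      rw [← h3] at h4
      exact h4
  have := key g
  rw [hg, map_zero, sub_zero] at this
  exact this

lemma isConj_of_cos_eq {b c : A} {f f' : A →₀ R} (h : cos b f' = cos b (shift c f)) :
    IsConj (⟨f, b⟩ : Wreath R A) ⟨f', b⟩ := by
  have h1 : f' - shift c f ∈ idl R b := by
    apply mem_idl_of_cos_eq_zero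
    rw [map_sub, h, sub_self]
  obtain ⟨g, hg⟩ := mem_idl.mp h1
  rw [isConj_iff]
  refine ⟨⟨g, c⟩, ?_⟩
  rw [mul_inv_eq_iff_eq_mul]
  apply Wreath.ext
  · simp only [Wreath.mul_lamp]
    have : g + shift c f = f' + shift b g := by
      have h2 : g - shift b g + (shift b g + shift c f) = f' - shift c f + (shift b g + shift c f) := by
        rw [hg]
      have h3 : g - shift b g + (shift b g + shift c f) = g + shift c f := by abel
      have h4 : f' - shift c f + (shift b g + shift c f) = f' + shift b g := by abel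
      rw [← h3, h2, h4]
    exact this
  · simp only [Wreath.mul_pos]
    exact add_comm _ _

lemma exists_shift_of_isConj {f f' : A →₀ R} (h : IsConj (⟨f, 0⟩ : Wreath R A) ⟨f', 0⟩) :
    ∃ c, f' = shift c f := by
  obtain ⟨⟨g, c⟩, hg⟩ := isConj_iff.mp h
  rw [mul_inv_eq_iff_eq_mul] at hg
  have h1 := congrArg Wreath.lamp hg
  simp only [Wreath.mul_lamp, shift_zero] at h1
  refine ⟨c, ?_⟩
  rw [add_comm] at h1
  exact (add_right_cancel h1).symm

end conj


section separate

/-- A size function on the coefficient group: `N a = 0 ↔ a = 0`, subadditive and symmetric. -/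
structure IsSize {R : Type*} [AddCommGroup R] (N : R → ℕ) : Prop where
  zero : N 0 = 0
  eq_zero : ∀ a, N a = 0 → a = 0
  neg : ∀ a, N (-a) = N a
  add : ∀ a b, N (a + b) ≤ N a + N b

variable {R A : Type*} [AddCommGroup R] [AddCommGroup A]

/-- Total weight of a lamp configuration. -/
def wt (N : R → ℕ) (f : A →₀ R) : ℕ := ∑ u ∈ f.support, N (f u)

lemma wt_eq_sum_of_subset {N : R → ℕ} (hN : IsSize N) (f : A →₀ R) {s : Finset A}
    (hs : f.support ⊆ s) : wt N f = ∑ u ∈ s, N (f u) := by
  apply Finset.sum_subset hs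
  intro u _ hu
  rw [Finsupp.notMem_support_iff.mp hu, hN.zero]

lemma wt_add {N : R → ℕ} (hN : IsSize N) (f g : A →₀ R) : wt N (f + g) ≤ wt N f + wt N g := by
  classical
  rw [wt_eq_sum_of_subset hN (f + g) Finsupp.support_add,
    wt_eq_sum_of_subset hN f Finset.subset_union_left,
    wt_eq_sum_of_subset hN g Finset.subset_union_right, ← Finset.sum_add_distrib]
  exact Finset.sum_le_sum fun u _ => hN.add _ _

lemma wt_neg {N : R → ℕ} (hN : IsSize N) (f : A →₀ R) : wt N (-f) = wt N f := by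
  unfold wt
  rw [Finsupp.support_neg]
  exact Finset.sum_congr rfl fun u _ => by rw [Finsupp.neg_apply, hN.neg]

lemma wt_shift {N : R → ℕ} (b : A) (f : A →₀ R) : wt N (shift b f) = wt N f := by
  classical
  have hinj : Function.Injective (fun u : A => b + u) := add_right_injective b
  have h1 : (shift b f).support = f.support.image (fun u => b + u) :=
    Finsupp.mapDomain_support_of_injective hinj f
  unfold wt
  rw [h1, Finset.sum_image (fun x _ y _ h => hinj h)]
  exact Finset.sum_congr rfl fun u _ => by rw [shift_apply]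

lemma card_support_le_wt {N : R → ℕ} (hN : IsSize N) (f : A →₀ R) : f.support.card ≤ wt N f := by
  unfold wt
  rw [Finset.card_eq_sum_ones]
  refine Finset.sum_le_sum fun u hu => ?_
  have h1 : f u ≠ 0 := Finsupp.mem_support_iff.mp hu
  have h2 : N (f u) ≠ 0 := fun h => h1 (hN.eq_zero _ h)
  omega

lemma size_sum_le {N : R → ℕ} (hN : IsSize N) {ι : Type*} (s : Finset ι) (F : ι → R) :
    N (∑ i ∈ s, F i) ≤ ∑ i ∈ s, N (F i) := by
  classical
  induction s using Finset.induction_on with
  | empty => simp [hN.zero]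
  | insert a s ha ih =>
    rw [Finset.sum_insert ha, Finset.sum_insert ha]
    exact (hN.add _ _).trans (Nat.add_le_add_left ih _)

lemma size_partial_sum_le {N : R → ℕ} (hN : IsSize N) (g : A →₀ R) (P : A → Prop)
    [DecidablePred P] : N (∑ v ∈ g.support with P v, g v) ≤ wt N g := by
  refine (size_sum_le hN _ _).trans ?_
  exact Finset.sum_le_sum_of_subset (Finset.filter_subset _ _)

/-- An isolated support point survives in the quotient. -/
lemma exists_isolated {N : R → ℕ} (hN : IsSize N) {b : A} {g : A →₀ R} (hg : cos b g ≠ 0) :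
    ∃ v₀ ∈ g.support, ∀ (R' A' : Type) [AddCommGroup R'] [AddCommGroup A'] (q : R →+ R')
      (Φ : A →+ A'), Φ b = 0 →
      (∀ v ∈ g.support, Φ (v - v₀) = 0 → v - v₀ ∈ AddSubgroup.zmultiples b) →
      (∀ z, N z ≤ wt N g → q z = 0 → z = 0) → lmap q Φ g (Φ v₀) ≠ 0 := by
  classical
  obtain ⟨ξ, hξ⟩ := Finsupp.ne_iff.mp hg
  rw [Finsupp.zero_apply] at hξ
  obtain ⟨v₀, hv₀, rfl⟩ := lmap_support _ _ g hξ
  refine ⟨v₀, hv₀, ?_⟩
  intro R' A' _ _ q Φ hb hΔ hq h0
  rw [lmap_apply] at h0
  have h1 := hq _ (size_partial_sum_le hN g _) h0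
  apply hξ
  rw [cos, lmap_apply, AddMonoidHom.id_apply, ← h1]
  apply Finset.sum_congr _ (fun _ _ => rfl)
  apply Finset.filter_congr
  intro v hv
  constructor
  · intro h
    have h2 : (QuotientAddGroup.mk v : A ⧸ AddSubgroup.zmultiples b) = QuotientAddGroup.mk v₀ := h
    rw [QuotientAddGroup.eq] at h2
    obtain ⟨t, ht⟩ := AddSubgroup.mem_zmultiples_iff.mp h2
    have h3 : Φ (-v + v₀) = 0 := by
      rw [← ht, map_zsmul, hb, smul_zero]
    rw [map_add, map_neg] at h3
    have : Φ v₀ = Φ v := by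
      have h4 := congrArg (fun z => Φ v + z) h3
      simpa using h4
    exact this.symm
  · intro h
    have h2 : Φ (v - v₀) = 0 := by rw [map_sub, h, sub_self]
    have h3 := hΔ v hv h2
    show (QuotientAddGroup.mk v : A ⧸ AddSubgroup.zmultiples b) = QuotientAddGroup.mk v₀
    rw [QuotientAddGroup.eq]
    have h4 : -v + v₀ = -(v - v₀) := by abel
    rw [h4]
    exact neg_mem h3

/-- A length function on `A`. -/
structure IsLen {A : Type*} [AddCommGroup A] (ℓ : A → ℕ) : Prop where
  zero : ℓ 0 = 0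
  neg : ∀ a, ℓ (-a) = ℓ a
  add : ∀ a b, ℓ (a + b) ≤ ℓ a + ℓ b

lemma IsLen.sub {ℓ : A → ℕ} (hℓ : IsLen ℓ) (a b : A) : ℓ (a - b) ≤ ℓ a + ℓ b := by
  rw [sub_eq_add_neg]
  exact (hℓ.add _ _).trans (by rw [hℓ.neg])

/-- The separation theorem, under the assumption that `f` has nonzero image in `R[A/⟨b⟩]`. -/
theorem separate_aux {N : R → ℕ} (hN : IsSize N) {ℓ : A → ℕ} (hℓ : IsLen ℓ) {f f' : A →₀ R} {b : A}
    {w r : ℕ} (hw : wt N f ≤ w) (hw' : wt N f' ≤ w) (hr : ∀ u ∈ f.support, ℓ u ≤ r)
    (hr' : ∀ u ∈ f'.support, ℓ u ≤ r) (hnc : ¬ IsConj (⟨f, b⟩ : Wreath R A) ⟨f', b⟩)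
    (hf : cos b f ≠ 0) :
    ∃ Δ : Finset A, Δ.card ≤ w + w * (2 * w) ∧ (∀ u ∈ Δ, ℓ u ≤ 6 * r) ∧
      ∀ (R' A' : Type) [AddCommGroup R'] [AddCommGroup A'] (q : R →+ R') (Φ : A →+ A'), Φ b = 0 →
        (∀ u ∈ Δ, Φ u = 0 → u ∈ AddSubgroup.zmultiples b) →
        (∀ z, N z ≤ 2 * w → q z = 0 → z = 0) →
        ¬ IsConj (wmap q Φ (⟨f, b⟩ : Wreath R A)) (wmap q Φ ⟨f', b⟩) := by
  classical
  obtain ⟨u₀, hu₀, H₀⟩ := exists_isolated hN hf
  -- the candidates
  let g : A → (A →₀ R) := fun u' => f' - shift (u' - u₀) f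
  have hg : ∀ u', cos b (g u') ≠ 0 := by
    intro u' h0
    apply hnc
    apply isConj_of_cos_eq (c := u' - u₀)
    rw [map_sub, sub_eq_zero] at h0
    exact h0
  choose v hv Hv using fun u' => exists_isolated hN (hg u')
  have hwg : ∀ u', wt N (g u') ≤ 2 * w := by
    intro u'
    have h1 : wt N (g u') ≤ wt N f' + wt N f := by
      have := wt_add hN f' (-(shift (u' - u₀) f))
      rw [wt_neg hN, wt_shift] at this
      rw [show g u' = f' + -(shift (u' - u₀) f) from sub_eq_add_neg _ _]
      exact this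
    omega
  have hlen : ∀ u' ∈ f'.support, ∀ x ∈ (g u').support, ℓ x ≤ 3 * r := by
    intro u' hu' x hx
    have hsub : (g u').support ⊆ f'.support ∪ (shift (u' - u₀) f).support := Finsupp.support_sub
    rcases Finset.mem_union.mp (hsub hx) with h | h
    · have := hr' x h; omega
    · obtain ⟨y, hy, rfl⟩ := shift_support _ _ h
      have h1 := hℓ.add (u' - u₀) y
      have h2 := hℓ.sub u' u₀
      have h3 := hr y hy
      have h4 := hr' u' hu'
      have h5 := hr u₀ hu₀
      omega
  let Δ : Finset A := f.support.image (fun x => x - u₀) ∪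
    f'.support.biUnion (fun u' => (g u').support.image (fun x => x - v u'))
  refine ⟨Δ, ?_, ?_, ?_⟩
  · refine (Finset.card_union_le _ _).trans ?_
    refine Nat.add_le_add ?_ ?_
    · exact Finset.card_image_le.trans ((card_support_le_wt hN f).trans hw)
    · refine Finset.card_biUnion_le.trans ?_
      calc ∑ u' ∈ f'.support, ((g u').support.image (fun x => x - v u')).card
          ≤ ∑ u' ∈ f'.support, 2 * w := by
            refine Finset.sum_le_sum fun u' _ => ?_
            exact Finset.card_image_le.trans ((card_support_le_wt hN _).trans (hwg u'))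
        _ = f'.support.card * (2 * w) := by rw [Finset.sum_const, smul_eq_mul]
        _ ≤ w * (2 * w) :=
            Nat.mul_le_mul_right _ ((card_support_le_wt hN f').trans hw')
  · intro u hu
    rcases Finset.mem_union.mp hu with h | h
    · obtain ⟨x, hx, rfl⟩ := Finset.mem_image.mp h
      have h1 := hℓ.sub x u₀
      have h2 := hr x hx
      have h3 := hr u₀ hu₀
      omega
    · obtain ⟨u', hu', h⟩ := Finset.mem_biUnion.mp h
      obtain ⟨x, hx, rfl⟩ := Finset.mem_image.mp h
      have h1 := hℓ.sub x (v u')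
      have h2 := hlen u' hu' x hx
      have h3 := hlen u' hu' (v u') (hv u')
      omega
  · intro R' A' _ _ q Φ hb hΔ hq hconj
    have e1 : wmap q Φ (⟨f, b⟩ : Wreath R A) = ⟨lmap q Φ f, 0⟩ := by
      apply Wreath.ext
      · rfl
      · exact hb
    have e2 : wmap q Φ (⟨f', b⟩ : Wreath R A) = ⟨lmap q Φ f', 0⟩ := by
      apply Wreath.ext
      · rfl
      · exact hb
    rw [e1, e2] at hconj
    obtain ⟨c, hc⟩ := exists_shift_of_isConj hconj
    have h0 : lmap q Φ f (Φ u₀) ≠ 0 := by
      apply H₀ R' A' q Φ hb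
      · intro x hx hx0
        exact hΔ _ (Finset.mem_union_left _ (Finset.mem_image_of_mem _ hx)) hx0
      · intro z hz
        exact hq z (by omega)
    have h1 : lmap q Φ f' (c + Φ u₀) ≠ 0 := by
      rw [hc, shift_apply]; exact h0
    obtain ⟨u', hu', hu'e⟩ := lmap_support q Φ f' h1
    have h2 : lmap q Φ (g u') = 0 := by
      show lmap q Φ (f' - shift (u' - u₀) f) = 0
      rw [map_sub, lmap_shift, map_sub, hu'e, add_sub_cancel_right, ← hc, sub_self]
    have h3 : lmap q Φ (g u') (Φ (v u')) ≠ 0 := by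
      apply Hv u' R' A' q Φ hb
      · intro x hx hx0
        refine hΔ _ (Finset.mem_union_right _ (Finset.mem_biUnion.mpr ⟨u', hu', ?_⟩)) hx0
        exact Finset.mem_image_of_mem _ hx
      · intro z hz
        exact hq z (hz.trans (hwg u'))
    exact h3 (by rw [h2]; rfl)

/-- **Separation theorem.** -/
theorem separate {N : R → ℕ} (hN : IsSize N) {ℓ : A → ℕ} (hℓ : IsLen ℓ) {f f' : A →₀ R} {b : A}
    {w r : ℕ} (hw : wt N f ≤ w) (hw' : wt N f' ≤ w) (hr : ∀ u ∈ f.support, ℓ u ≤ r)
    (hr' : ∀ u ∈ f'.support, ℓ u ≤ r) (hnc : ¬ IsConj (⟨f, b⟩ : Wreath R A) ⟨f', b⟩) :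
    ∃ Δ : Finset A, Δ.card ≤ w + w * (2 * w) ∧ (∀ u ∈ Δ, ℓ u ≤ 6 * r) ∧
      ∀ (R' A' : Type) [AddCommGroup R'] [AddCommGroup A'] (q : R →+ R') (Φ : A →+ A'), Φ b = 0 →
        (∀ u ∈ Δ, Φ u = 0 → u ∈ AddSubgroup.zmultiples b) →
        (∀ z, N z ≤ 2 * w → q z = 0 → z = 0) →
        ¬ IsConj (wmap q Φ (⟨f, b⟩ : Wreath R A)) (wmap q Φ ⟨f', b⟩) := by
  by_cases hf : cos b f = 0
  · have hf' : cos b f' ≠ 0 := by
      intro hf'
      apply hnc
      apply isConj_of_cos_eq (c := 0)
      rw [shift_zero, hf, hf']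
    obtain ⟨Δ, h1, h2, h3⟩ := separate_aux hN hℓ hw' hw hr' hr (fun h => hnc h.symm) hf'
    exact ⟨Δ, h1, h2, fun R' A' _ _ q Φ hb hΔ hq h => h3 R' A' q Φ hb hΔ hq h.symm⟩
  · exact separate_aux hN hℓ hw hw' hr hr' hnc hf

end separate

end Pool.Agent.R634
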