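import Mathlib
import Pool.Agent.R634.WreathSep

/-!
# Bounding conjugacy depth of `R ≀ ℤ^k`
-/

set_option linter.unusedSectionVars false

namespace Pool.Agent.R634

open Finsupp

lemma depth_le_of_hom {G Q : Type*} [Group G] [Group Q] [Finite Q] (π : G →* Q) {x y : G}
    (h : ¬ IsConj (π x) (π y)) : depth x y ≤ (Nat.card Q : ℕ∞) := by
  have hfin : Finite π.range := inferInstance
  have hidx : π.ker.index = Nat.card π.range := Subgroup.index_ker π
  have hFI : π.ker.FiniteIndex := ⟨by rw [hidx]; exact Nat.card_pos.ne'⟩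
  have hnc : ¬ IsConj (QuotientGroup.mk x : G ⧸ π.ker) (QuotientGroup.mk y : G ⧸ π.ker) := by
    intro hc
    apply h
    have := (QuotientGroup.kerLift π).map_isConj hc
    simpa using this
  have h1 : depth x y ≤ (π.ker.index : ℕ∞) := by
    unfold depth
    exact iInf_le_of_le π.ker (iInf_le_of_le inferInstance (iInf_le_of_le hFI
      (iInf_le_of_le hnc le_rfl)))
  refine h1.trans ?_
  rw [hidx]
  exact_mod_cast Subgroup.card_le_card_group π.range

lemma conjDepth_le {G : Type*} [Group G] {S : Set G} {n : ℕ} {B : ℕ∞}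
    (h : ∀ x ∈ ball S n, ∀ y ∈ ball S n, ¬ IsConj x y → depth x y ≤ B) : conjDepth S n ≤ B := by
  unfold conjDepth
  simp only [iSup_le_iff]
  exact h

section ballbound

variable {R A : Type*} [AddCommGroup R] [AddCommGroup A]

lemma ball_bound {N : R → ℕ} (hN : IsSize N) {ℓ : A → ℕ} (hℓ : IsLen ℓ)
    {S : Set (Wreath R A)} (hS : S.Finite) :
    ∃ ρ : ℕ, 1 ≤ ρ ∧ ∀ n, ∀ x ∈ ball S n, wt N x.lamp ≤ ρ * n ∧ ℓ x.pos ≤ ρ * n ∧
      ∀ u ∈ x.lamp.support, ℓ u ≤ ρ * n := by
  classical
  let sz : Wreath R A → ℕ := fun x => wt N x.lamp + ℓ x.pos + x.lamp.support.sup ℓ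
  have hfin : ((S ∪ S⁻¹).image sz).Finite := (hS.union hS.inv).image sz
  obtain ⟨ρ₀, hρ₀⟩ := hfin.bddAbove
  have hρ : ∀ s, (s ∈ S ∨ s⁻¹ ∈ S) → sz s ≤ ρ₀ + 1 := by
    intro s hs
    have : s ∈ S ∪ S⁻¹ := by
      rcases hs with h | h
      · exact Or.inl h
      · exact Or.inr h
    exact (hρ₀ ⟨s, this, rfl⟩).trans (Nat.le_succ _)
  refine ⟨ρ₀ + 1, by omega, ?_⟩
  have key : ∀ l : List (Wreath R A), (∀ s ∈ l, s ∈ S ∨ s⁻¹ ∈ S) →
      wt N l.prod.lamp ≤ (ρ₀ + 1) * l.length ∧ ℓ l.prod.pos ≤ (ρ₀ + 1) * l.length ∧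
      ∀ u ∈ l.prod.lamp.support, ℓ u ≤ (ρ₀ + 1) * l.length := by
    intro l
    induction l with
    | nil =>
      intro _
      refine ⟨?_, ?_, ?_⟩
      · simp [wt]
      · simp [hℓ.zero]
      · intro u hu
        simp at hu
    | cons s l ih =>
      intro hl
      obtain ⟨h1, h2, h3⟩ := ih (fun t ht => hl t (List.mem_cons_of_mem _ ht))
      have hs := hρ s (hl s List.mem_cons_self)
      have hs1 : wt N s.lamp ≤ ρ₀ + 1 := by simp only [sz] at hs; omega
      have hs2 : ℓ s.pos ≤ ρ₀ + 1 := by simp only [sz] at hs; omega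
      have hs3 : ∀ u ∈ s.lamp.support, ℓ u ≤ ρ₀ + 1 := by
        intro u hu
        have := Finset.le_sup (f := ℓ) hu
        simp only [sz] at hs
        omega
      have hlen : (ρ₀ + 1) * (s :: l).length = (ρ₀ + 1) * l.length + (ρ₀ + 1) := by
        rw [List.length_cons]; ring
      rw [hlen]
      refine ⟨?_, ?_, ?_⟩
      · rw [List.prod_cons, Wreath.mul_lamp]
        have := wt_add hN s.lamp (shift s.pos l.prod.lamp)
        rw [wt_shift] at this
        omega
      · rw [List.prod_cons, Wreath.mul_pos]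
        have := hℓ.add s.pos l.prod.pos
        omega
      · intro u hu
        rw [List.prod_cons, Wreath.mul_lamp] at hu
        rcases Finset.mem_union.mp (Finsupp.support_add hu) with h | h
        · have := hs3 u h
          omega
        · obtain ⟨v, hv, rfl⟩ := shift_support _ _ h
          have h4 := hℓ.add s.pos v
          have h5 := h3 v hv
          omega
  rintro n x ⟨l, hl, hlS, rfl⟩
  obtain ⟨h1, h2, h3⟩ := key l hlS
  have hmul : (ρ₀ + 1) * l.length ≤ (ρ₀ + 1) * n := Nat.mul_le_mul_left _ hl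
  exact ⟨h1.trans hmul, h2.trans hmul, fun u hu => (h3 u hu).trans hmul⟩

/-- Cardinality of a finite wreath product. -/
lemma card_wreath (R A : Type*) [AddCommGroup R] [AddCommGroup A] [Finite R] [Finite A] :
    Finite (Wreath R A) ∧ Nat.card (Wreath R A) = Nat.card R ^ Nat.card A * Nat.card A := by
  let e : Wreath R A ≃ (A →₀ R) × A :=
    { toFun := fun x => (x.lamp, x.pos)
      invFun := fun x => ⟨x.1, x.2⟩
      left_inv := fun _ => rfl
      right_inv := fun _ => rfl }
  have hF : Finite (A →₀ R) := Finite.of_equiv _ (Finsupp.equivFunOnFinite (α := A) (M := R)).symm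
  refine ⟨Finite.of_equiv _ e.symm, ?_⟩
  rw [Nat.card_congr e, Nat.card_prod, Nat.card_congr (Finsupp.equivFunOnFinite (α := A) (M := R)),
    Nat.card_fun]

end ballbound

section lattice

/-- The sup-length on `ℤ^k`. -/
def supLen {k : ℕ} (u : Fin k → ℤ) : ℕ := Finset.univ.sup (fun i => (u i).natAbs)

lemma natAbs_le_supLen {k : ℕ} (u : Fin k → ℤ) (i : Fin k) : (u i).natAbs ≤ supLen u :=
  Finset.le_sup (f := fun i => (u i).natAbs) (Finset.mem_univ i)

lemma supLen_le {k : ℕ} {u : Fin k → ℤ} {r : ℕ} (h : ∀ i, (u i).natAbs ≤ r) : supLen u ≤ r :=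
  Finset.sup_le fun i _ => h i

lemma isLen_supLen (k : ℕ) : IsLen (supLen : (Fin k → ℤ) → ℕ) where
  zero := by
    apply Nat.le_zero.mp
    exact supLen_le fun i => by simp
  neg a := by simp [supLen]
  add a b := supLen_le fun i => by
    have h1 := natAbs_le_supLen a i
    have h2 := natAbs_le_supLen b i
    have h3 := Int.natAbs_add_le (a i) (b i)
    rw [Pi.add_apply]
    omega

/-- The lattice used for the box bound. -/
theorem exists_lattice {k : ℕ} {b : Fin k → ℤ} {r : ℕ} (hb : supLen b ≤ r) :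
    ∃ Λ : AddSubgroup (Fin k → ℤ), b ∈ Λ ∧
      (∀ u, supLen u ≤ 6 * r → u ∈ Λ → u ∈ AddSubgroup.zmultiples b) ∧
      Finite ((Fin k → ℤ) ⧸ Λ) ∧ Nat.card ((Fin k → ℤ) ⧸ Λ) ≤ (12 * r + 1) ^ k := by
  classical
  set M : ℕ := 12 * r + 1 with hM
  have hMpos : (0 : ℤ) < (M : ℤ) := by omega
  -- a general way to bound the cardinality
  have hcard : ∀ Λ : AddSubgroup (Fin k → ℤ),
      (∀ v : Fin k → ℤ, ∃ a : Fin k → Fin M, -(fun i => ((a i : ℕ) : ℤ)) + v ∈ Λ) →
      Finite ((Fin k → ℤ) ⧸ Λ) ∧ Nat.card ((Fin k → ℤ) ⧸ Λ) ≤ M ^ k := by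
    intro Λ h
    let F : (Fin k → Fin M) → ((Fin k → ℤ) ⧸ Λ) :=
      fun a => QuotientAddGroup.mk (fun i => ((a i : ℕ) : ℤ))
    have hF : Function.Surjective F := by
      intro ξ
      obtain ⟨v, rfl⟩ := QuotientAddGroup.mk_surjective ξ
      obtain ⟨a, ha⟩ := h v
      exact ⟨a, QuotientAddGroup.eq.mpr ha⟩
    refine ⟨Finite.of_surjective F hF, ?_⟩
    have := Nat.card_le_card_of_surjective F hF
    rw [Nat.card_fun, Nat.card_eq_fintype_card (α := Fin M),
      Nat.card_eq_fintype_card (α := Fin k), Fintype.card_fin, Fintype.card_fin] at this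
    exact this
  by_cases hb0 : b = 0
  · subst hb0
    let Λ : AddSubgroup (Fin k → ℤ) :=
      { carrier := {u | ∀ i, (M : ℤ) ∣ u i}
        add_mem' := fun ha hb i => dvd_add (ha i) (hb i)
        zero_mem' := fun i => dvd_zero _
        neg_mem' := fun ha i => (dvd_neg).mpr (ha i) }
    refine ⟨Λ, zero_mem _, ?_, ?_⟩
    · intro u hu huΛ
      have : u = 0 := by
        funext i
        have h1 := natAbs_le_supLen u i
        have h2 : (M : ℤ) ∣ u i := huΛ i
        have h3 : M ∣ (u i).natAbs := Int.natCast_dvd.mp h2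
        have h4 : (u i).natAbs = 0 := Nat.eq_zero_of_dvd_of_lt h3 (by omega)
        exact Int.natAbs_eq_zero.mp h4
      rw [this]
      exact zero_mem _
    · apply hcard
      intro v
      refine ⟨fun i => ⟨(v i % M).toNat, ?_⟩, ?_⟩
      · have h1 := Int.emod_lt_of_pos (v i) hMpos
        have h2 := Int.emod_nonneg (v i) hMpos.ne'
        omega
      · intro i
        have h2 := Int.emod_nonneg (v i) hMpos.ne'
        have h3 : (((v i % M).toNat : ℕ) : ℤ) = v i % M := Int.toNat_of_nonneg h2
        show (M : ℤ) ∣ -(((v i % M).toNat : ℕ) : ℤ) + v i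
        rw [h3]
        have h4 : -(v i % M) + v i = M * (v i / M) := by
          have := Int.emod_add_mul_ediv (v i) M
          linarith
        rw [h4]
        exact dvd_mul_right _ _
  · -- coordinate with maximal absolute value
    have hk : (Finset.univ : Finset (Fin k)).Nonempty := by
      by_contra h
      apply hb0
      funext i
      exact absurd ⟨i, Finset.mem_univ i⟩ h
    obtain ⟨i₀, -, hi₀⟩ := Finset.exists_max_image Finset.univ (fun i => (b i).natAbs) hk
    have hmax : ∀ i, (b i).natAbs ≤ (b i₀).natAbs := fun i => hi₀ i (Finset.mem_univ i)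
    have hbne : b i₀ ≠ 0 := by
      intro h
      apply hb0
      funext i
      have := hmax i
      rw [h] at this
      simpa using this
    have hbr : (b i₀).natAbs ≤ r := (natAbs_le_supLen b i₀).trans hb
    let Λ : AddSubgroup (Fin k → ℤ) :=
      { carrier := {u | ∃ t : ℤ, u i₀ = t * b i₀ ∧ ∀ i, (M : ℤ) ∣ u i - t * b i}
        add_mem' := by
          rintro a c ⟨t, ht, hta⟩ ⟨s, hs, hsc⟩
          refine ⟨t + s, ?_, fun i => ?_⟩
          · rw [Pi.add_apply, ht, hs]; ring
          · have : (a + c) i - (t + s) * b i = (a i - t * b i) + (c i - s * b i) := by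
              rw [Pi.add_apply]; ring
            rw [this]
            exact dvd_add (hta i) (hsc i)
        zero_mem' := ⟨0, by simp, fun i => by simp⟩
        neg_mem' := by
          rintro a ⟨t, ht, hta⟩
          refine ⟨-t, ?_, fun i => ?_⟩
          · rw [Pi.neg_apply, ht]; ring
          · have : (-a) i - (-t) * b i = -(a i - t * b i) := by
              rw [Pi.neg_apply]; ring
            rw [this]
            exact (dvd_neg).mpr (hta i) }
    refine ⟨Λ, ⟨1, by ring, fun i => by simp⟩, ?_, ?_⟩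
    · rintro u hu ⟨t, ht, htu⟩
      refine AddSubgroup.mem_zmultiples_iff.mpr ⟨t, ?_⟩
      funext i
      have h1 := natAbs_le_supLen u i
      have h2 := natAbs_le_supLen u i₀
      have h3 : (t * b i).natAbs ≤ 6 * r := by
        calc (t * b i).natAbs = t.natAbs * (b i).natAbs := Int.natAbs_mul _ _
          _ ≤ t.natAbs * (b i₀).natAbs := Nat.mul_le_mul_left _ (hmax i)
          _ = (t * b i₀).natAbs := (Int.natAbs_mul _ _).symm
          _ = (u i₀).natAbs := by rw [ht]
          _ ≤ 6 * r := h2.trans hu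
      have h4 : M ∣ (u i - t * b i).natAbs := Int.natCast_dvd.mp (htu i)
      have h5 : (u i - t * b i).natAbs ≤ (u i).natAbs + (t * b i).natAbs := Int.natAbs_sub_le _ _
      have h6 : (u i - t * b i).natAbs = 0 := Nat.eq_zero_of_dvd_of_lt h4 (by omega)
      have h7 := Int.natAbs_eq_zero.mp h6
      rw [Pi.smul_apply, smul_eq_mul]
      linarith
    · apply hcard
      intro v
      set t : ℤ := v i₀ / b i₀ with ht
      have hrep : ∀ i, ∃ z : ℤ, 0 ≤ z ∧ z < M ∧
          ((i = i₀ → z = v i₀ - t * b i₀) ∧ (M : ℤ) ∣ (-z + v i) - t * b i) := by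
        intro i
        by_cases hi : i = i₀
        · subst hi
          refine ⟨v i % b i, Int.emod_nonneg _ hbne, ?_, ?_, ?_⟩
          · have h1 := Int.emod_lt_abs (v i) hbne
            have h2 : |b i| = ((b i).natAbs : ℤ) := Int.abs_eq_natAbs _
            omega
          · intro _
            have := Int.emod_add_mul_ediv (v i) (b i)
            rw [ht]; linarith
          · have := Int.emod_add_mul_ediv (v i) (b i)
            have h3 : (-(v i % b i) + v i) - t * b i = 0 := by rw [ht]; linarith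
            rw [h3]
            exact dvd_zero _
        · refine ⟨(v i - t * b i) % M, Int.emod_nonneg _ hMpos.ne', Int.emod_lt_of_pos _ hMpos,
            fun h => absurd h hi, ?_⟩
          have h4 : (-((v i - t * b i) % M) + v i) - t * b i = M * ((v i - t * b i) / M) := by
            have := Int.emod_add_mul_ediv (v i - t * b i) M
            linarith
          rw [h4]
          exact dvd_mul_right _ _
      choose z hz0 hzM hz1 hz2 using hrep
      refine ⟨fun i => ⟨(z i).toNat, ?_⟩, ?_⟩
      · have h1 := hz0 i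
        have h2 := hzM i
        omega
      · have hcast : ∀ i, (((z i).toNat : ℕ) : ℤ) = z i := fun i => Int.toNat_of_nonneg (hz0 i)
        refine ⟨t, ?_, fun i => ?_⟩
        · show -(((z i₀).toNat : ℕ) : ℤ) + v i₀ = t * b i₀
          rw [hcast, hz1 i₀ rfl]; ring
        · show (M : ℤ) ∣ (-(((z i).toNat : ℕ) : ℤ) + v i) - t * b i
          rw [hcast]
          exact hz2 i

end lattice

end Pool.Agent.R634
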