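import Mathlib
import Pool.Agent.R634.WreathDepth

/-!
# The box bound for the conjugacy depth of `R ≀ ℤ^k`
-/

namespace Pool.Agent.R634

open Finsupp

/-- The homomorphism `R ≀ A → A' ` (written multiplicatively) induced by `Φ : A → A'`. -/
def posHom {R A A' : Type*} [AddCommGroup R] [AddCommGroup A] [AddCommGroup A'] (Φ : A →+ A') :
    Wreath R A →* Multiplicative A' where
  toFun x := Multiplicative.ofAdd (Φ x.pos)
  map_one' := by simp
  map_mul' x y := by simp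

lemma depth_le_of_pos_ne {R : Type*} [AddCommGroup R] {k : ℕ} {x y : Wreath R (Fin k → ℤ)}
    {r : ℕ} (hx : supLen x.pos ≤ r) (hy : supLen y.pos ≤ r) (hne : x.pos ≠ y.pos) :
    depth x y ≤ ((2 * r + 1 : ℕ) : ℕ∞) := by
  obtain ⟨i, hi⟩ := Function.ne_iff.mp hne
  have : NeZero (2 * r + 1) := ⟨by omega⟩
  let Φ : (Fin k → ℤ) →+ ZMod (2 * r + 1) :=
    (Int.castAddHom (ZMod (2 * r + 1))).comp (Pi.evalAddMonoidHom (fun _ : Fin k => ℤ) i)
  have h := depth_le_of_hom (Q := Multiplicative (ZMod (2 * r + 1))) (posHom (R := R) Φ)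
    (x := x) (y := y) ?_
  · refine h.trans ?_
    rw [Nat.card_eq_fintype_card, Fintype.card_multiplicative, ZMod.card]
  · intro hc
    rw [isConj_iff_eq] at hc
    have h1 : Φ x.pos = Φ y.pos := Multiplicative.ofAdd.injective hc
    have h2 : ((x.pos i : ℤ) : ZMod (2 * r + 1)) = ((y.pos i : ℤ) : ZMod (2 * r + 1)) := h1
    rw [ZMod.intCast_eq_intCast_iff_dvd_sub] at h2
    have h3 : (2 * r + 1) ∣ (y.pos i - x.pos i).natAbs := Int.natCast_dvd.mp h2
    have h4 := natAbs_le_supLen x.pos i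
    have h5 := natAbs_le_supLen y.pos i
    have h6 : (y.pos i - x.pos i).natAbs ≤ (y.pos i).natAbs + (x.pos i).natAbs :=
      Int.natAbs_sub_le _ _
    have h7 : (y.pos i - x.pos i).natAbs = 0 := Nat.eq_zero_of_dvd_of_lt h3 (by omega)
    apply hi
    have := Int.natAbs_eq_zero.mp h7
    linarith

/-- Depth bound for elements with the same position, via a finite quotient of `A`. -/
lemma depth_le_of_quot {R A : Type*} [AddCommGroup R] [AddCommGroup A] {x y : Wreath R A}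
    {R' A' : Type} [AddCommGroup R'] [AddCommGroup A'] [Finite R'] [Finite A'] (q : R →+ R')
    (Φ : A →+ A') (h : ¬ IsConj (wmap q Φ x) (wmap q Φ y)) :
    depth x y ≤ ((Nat.card R' ^ Nat.card A' * Nat.card A' : ℕ) : ℕ∞) := by
  obtain ⟨h1, h2⟩ := card_wreath R' A'
  rw [← h2]
  exact depth_le_of_hom (wmap q Φ) h

theorem conjDepth_box {R : Type*} [AddCommGroup R] {N : R → ℕ} (hN : IsSize N) {k : ℕ}
    (hk : 1 ≤ k) {S : Set (Wreath R (Fin k → ℤ))} (hS : S.Finite) :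
    ∃ ρ : ℕ, 1 ≤ ρ ∧ ∀ n, ∀ (R' : Type) [AddCommGroup R'] [Finite R'] (q : R →+ R'),
      (∀ z, N z ≤ 2 * (ρ * n) → q z = 0 → z = 0) →
      conjDepth S n ≤
        ((Nat.card R' ^ ((12 * (ρ * n) + 1) ^ k) * (12 * (ρ * n) + 1) ^ k : ℕ) : ℕ∞) := by
  obtain ⟨ρ, hρ, hball⟩ := ball_bound hN (isLen_supLen k) hS
  refine ⟨ρ, hρ, ?_⟩
  intro n R' _ _ q hq
  apply conjDepth_le
  intro x hx y hy hnc
  obtain ⟨hx1, hx2, hx3⟩ := hball n x hx
  obtain ⟨hy1, hy2, hy3⟩ := hball n y hy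
  have hcR : 1 ≤ Nat.card R' := Nat.card_pos
  by_cases hpos : x.pos = y.pos
  · obtain ⟨Λ, hbΛ, hΛ, hfin, hcard⟩ := exists_lattice hx2
    obtain ⟨f, b⟩ := x
    obtain ⟨f', b'⟩ := y
    simp only at hpos hx1 hx2 hx3 hy1 hy2 hy3 hbΛ hΛ
    subst hpos
    obtain ⟨Δ, -, hΔ, hsep⟩ := separate hN (isLen_supLen k) hx1 hy1 hx3 hy3 hnc
    have h := hsep R' ((Fin k → ℤ) ⧸ Λ) q (QuotientAddGroup.mk' Λ)
      ((QuotientAddGroup.eq_zero_iff _).mpr hbΛ)
      (fun u hu hu0 => hΛ u (hΔ u hu) ((QuotientAddGroup.eq_zero_iff _).mp hu0)) hq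
    refine (depth_le_of_quot q (QuotientAddGroup.mk' Λ) h).trans ?_
    exact_mod_cast Nat.mul_le_mul (Nat.pow_le_pow_right hcR hcard) hcard
  · refine (depth_le_of_pos_ne hx2 hy2 hpos).trans ?_
    have h1 : 2 * (ρ * n) + 1 ≤ (12 * (ρ * n) + 1) ^ k := by
      calc 2 * (ρ * n) + 1 ≤ 12 * (ρ * n) + 1 := by omega
        _ = (12 * (ρ * n) + 1) ^ 1 := (pow_one _).symm
        _ ≤ (12 * (ρ * n) + 1) ^ k := Nat.pow_le_pow_right (by omega) hk
    have h2 : 1 ≤ Nat.card R' ^ ((12 * (ρ * n) + 1) ^ k) := Nat.one_le_pow _ _ hcR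
    exact_mod_cast h1.trans (Nat.le_mul_of_pos_left _ h2)

/-- The size function on a group: `0` at `0` and `1` elsewhere. -/
lemma isSize_discrete (R : Type*) [AddCommGroup R] [DecidableEq R] :
    IsSize (fun z : R => if z = 0 then 0 else 1) where
  zero := by simp
  eq_zero a h := by
    by_contra ha
    simp [ha] at h
  neg a := by simp
  add a b := by
    by_cases ha : a = 0
    · simp [ha]
    · simp only [ha, if_false]
      split_ifs <;> omega

lemma isSize_int : IsSize (fun z : ℤ => z.natAbs) where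
  zero := by simp
  eq_zero a h := Int.natAbs_eq_zero.mp h
  neg a := Int.natAbs_neg a
  add a b := Int.natAbs_add_le a b

lemma int_cast_inj {w : ℕ} (z : ℤ) (hz : z.natAbs ≤ 2 * w)
    (h : (Int.castAddHom (ZMod (2 * w + 1))) z = 0) : z = 0 := by
  have h1 : ((z : ℤ) : ZMod (2 * w + 1)) = 0 := h
  rw [ZMod.intCast_zmod_eq_zero_iff_dvd] at h1
  have h2 : (2 * w + 1) ∣ z.natAbs := Int.natCast_dvd.mp h1
  have h3 : z.natAbs = 0 := Nat.eq_zero_of_dvd_of_lt h2 (by omega)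
  exact Int.natAbs_eq_zero.mp h3

end Pool.Agent.R634
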