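import Mathlib
import Pool.Agent.R634.Wreath

/-!
# `R ≀ ℤ^k` is finitely generated when `R` is cyclic
-/

namespace Pool.Agent.R634

open Finsupp

theorem exists_finite_generating {R : Type*} [AddCommGroup R] {k : ℕ} (r₁ : R)
    (hr : ∀ r : R, ∃ z : ℤ, z • r₁ = r) :
    ∃ S : Set (Wreath R (Fin k → ℤ)), S.Finite ∧ Subgroup.closure S = ⊤ := by
  classical
  let S : Set (Wreath R (Fin k → ℤ)) :=
    insert ⟨single 0 r₁, 0⟩ (Set.range fun i : Fin k => (⟨0, Pi.single i 1⟩ : Wreath R _))
  refine ⟨S, (Set.finite_range _).insert _, ?_⟩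
  set H := Subgroup.closure S with hH
  -- positions
  let T1 : AddSubgroup (Fin k → ℤ) :=
    { carrier := {v | (⟨0, v⟩ : Wreath R (Fin k → ℤ)) ∈ H}
      add_mem' := by
        intro a b ha hb
        have h1 := H.mul_mem ha hb
        have h2 : (⟨0, a⟩ : Wreath R (Fin k → ℤ)) * ⟨0, b⟩ = ⟨0, a + b⟩ := by
          apply Wreath.ext <;> simp
        rw [h2] at h1
        exact h1
      zero_mem' := one_mem H
      neg_mem' := by
        intro a ha
        have h1 := H.inv_mem ha
        have h2 : (⟨0, a⟩ : Wreath R (Fin k → ℤ))⁻¹ = ⟨0, -a⟩ := by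
          apply Wreath.ext <;> simp
        rw [h2] at h1
        exact h1 }
  have hT1 : ∀ v, v ∈ T1 := by
    intro v
    have h1 : v = ∑ i, v i • (Pi.single i (1:ℤ) : Fin k → ℤ) := by
      funext j
      rw [Finset.sum_apply, Finset.sum_eq_single j]
      · simp
      · intro i _ hij
        simp [hij.symm]
      · intro h; exact absurd (Finset.mem_univ j) h
    rw [h1]
    apply sum_mem
    intro i _
    apply zsmul_mem
    show (⟨0, Pi.single i 1⟩ : Wreath R (Fin k → ℤ)) ∈ H
    exact Subgroup.subset_closure (Set.mem_insert_of_mem _ ⟨i, rfl⟩)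
  let T2 : AddSubgroup ((Fin k → ℤ) →₀ R) :=
    { carrier := {f | (⟨f, 0⟩ : Wreath R (Fin k → ℤ)) ∈ H}
      add_mem' := by
        intro a b ha hb
        have h1 := H.mul_mem ha hb
        have h2 : (⟨a, 0⟩ : Wreath R (Fin k → ℤ)) * ⟨b, 0⟩ = ⟨a + b, 0⟩ := by
          apply Wreath.ext <;> simp [shift_zero]
        rw [h2] at h1
        exact h1
      zero_mem' := one_mem H
      neg_mem' := by
        intro a ha
        have h1 := H.inv_mem ha
        have h2 : (⟨a, 0⟩ : Wreath R (Fin k → ℤ))⁻¹ = ⟨-a, 0⟩ := by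
          apply Wreath.ext <;> simp [shift_zero]
        rw [h2] at h1
        exact h1 }
  have hT2 : ∀ f, f ∈ T2 := by
    intro f
    induction f using Finsupp.induction_linear with
    | zero => exact zero_mem _
    | add f g hf hg => exact add_mem hf hg
    | single u r =>
      obtain ⟨z, rfl⟩ := hr r
      have h1 : single u (z • r₁) = z • (single u r₁ : (Fin k → ℤ) →₀ R) := by
        rw [Finsupp.smul_single]
      rw [h1]
      apply zsmul_mem
      show (⟨single u r₁, 0⟩ : Wreath R (Fin k → ℤ)) ∈ H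
      have h2 : (⟨single u r₁, 0⟩ : Wreath R (Fin k → ℤ)) =
          ⟨0, u⟩ * ⟨single 0 r₁, 0⟩ * ⟨0, -u⟩ := by
        apply Wreath.ext <;> simp
      rw [h2]
      exact mul_mem (mul_mem (hT1 u) (Subgroup.subset_closure (Set.mem_insert _ _))) (hT1 (-u))
  rw [eq_top_iff]
  rintro ⟨f, v⟩ -
  have h1 : (⟨f, v⟩ : Wreath R (Fin k → ℤ)) = ⟨f, 0⟩ * ⟨0, v⟩ := by
    apply Wreath.ext <;> simp
  rw [h1]
  exact mul_mem (hT2 f) (hT1 v)

end Pool.Agent.R634
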