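import Mathlib
import Pool.Agent.R634.WreathBox

/-!
# A `k`-independent upper bound for the conjugacy depth of `R ≀ ℤ^k`
-/

namespace Pool.Agent.R634

open Finsupp

section digits

lemma digits_lemma (W : ℕ) : ∀ (k : ℕ) (a : Fin k → ℤ), (∀ i, 2 * (a i).natAbs < W) →
    2 * (∑ i, a i * (W : ℤ) ^ (i : ℕ)).natAbs < W ^ k ∧
      ((∑ i, a i * (W : ℤ) ^ (i : ℕ)) = 0 → a = 0) := by
  intro k
  induction k with
  | zero =>
    intro a _
    refine ⟨by simp, fun _ => ?_⟩
    funext i
    exact i.elim0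
  | succ k ih =>
    intro a ha
    obtain ⟨h1, h2⟩ := ih (fun i => a i.succ) (fun i => ha i.succ)
    have hsum : (∑ i, a i * (W : ℤ) ^ (i : ℕ)) =
        a 0 + W * ∑ i : Fin k, a i.succ * (W : ℤ) ^ (i : ℕ) := by
      rw [Fin.sum_univ_succ, Finset.mul_sum]
      congr 1
      · simp
      · refine Finset.sum_congr rfl fun i _ => ?_
        rw [Fin.val_succ, pow_succ]
        ring
    set T : ℤ := ∑ i : Fin k, a i.succ * (W : ℤ) ^ (i : ℕ) with hT
    rw [hsum]
    have h0 := ha 0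
    constructor
    · have h3 : (a 0 + W * T).natAbs ≤ (a 0).natAbs + W * T.natAbs := by
        refine (Int.natAbs_add_le _ _).trans ?_
        rw [Int.natAbs_mul, Int.natAbs_natCast]
      have h4 : W * (2 * T.natAbs + 1) ≤ W * W ^ k := Nat.mul_le_mul_left _ h1
      rw [pow_succ, mul_comm (W ^ k) W]
      nlinarith
    · intro h
      have h5 : (W : ℤ) ∣ a 0 := by
        refine ⟨-T, ?_⟩
        linarith
      have h6 : W ∣ (a 0).natAbs := Int.natCast_dvd.mp h5
      have h7 : (a 0).natAbs = 0 := Nat.eq_zero_of_dvd_of_lt h6 (by omega)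
      have h8 : a 0 = 0 := Int.natAbs_eq_zero.mp h7
      have hW : (W : ℤ) ≠ 0 := by
        have : 0 < W := by omega
        exact_mod_cast this.ne'
      have h9 : T = 0 := by
        rw [h8, zero_add] at h
        exact (mul_eq_zero.mp h).resolve_left hW
      have h10 := h2 h9
      funext i
      refine Fin.cases ?_ (fun j => ?_) i
      · exact h8
      · exact congrFun h10 j

/-- A linear functional `ψ` and a character `θ` of small order jointly detecting the
non-multiples of `b` in a box. -/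
theorem exists_functional {k : ℕ} {b : Fin k → ℤ} {r : ℕ} (hr : 1 ≤ r) (hb : supLen b ≤ r) :
    ∃ (ψ : (Fin k → ℤ) →+ ℤ) (β : ℕ) (θ : (Fin k → ℤ) →+ ZMod β), 1 ≤ β ∧ β ≤ r ∧
      ψ b = 0 ∧ θ b = 0 ∧
      (∀ u, supLen u ≤ 6 * r → (ψ u).natAbs ≤ (24 * r ^ 2 + 1) ^ k) ∧
      (∀ u, supLen u ≤ 6 * r → ψ u = 0 → θ u = 0 → u ∈ AddSubgroup.zmultiples b) := by
  classical
  set W : ℕ := 24 * r ^ 2 + 1 with hW
  have hr2 : r ≤ r ^ 2 := Nat.le_self_pow (by norm_num) r
  by_cases hb0 : b = 0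
  · subst hb0
    let ψ : (Fin k → ℤ) →+ ℤ :=
      { toFun := fun u => ∑ i, u i * (W : ℤ) ^ (i : ℕ)
        map_zero' := by simp
        map_add' := fun u v => by
          rw [← Finset.sum_add_distrib]
          exact Finset.sum_congr rfl fun i _ => by rw [Pi.add_apply]; ring }
    refine ⟨ψ, 1, 0, le_rfl, hr, map_zero _, rfl, ?_, ?_⟩
    · intro u hu
      have := (digits_lemma W k u (fun i => by
        have := natAbs_le_supLen u i
        omega)).1
      show (∑ i, u i * (W : ℤ) ^ (i : ℕ)).natAbs ≤ W ^ k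
      omega
    · intro u hu hψ _
      have := (digits_lemma W k u (fun i => by
        have := natAbs_le_supLen u i
        omega)).2 hψ
      rw [this]
      exact zero_mem _
  · have hk : (Finset.univ : Finset (Fin k)).Nonempty := by
      by_contra h
      apply hb0
      funext i
      exact absurd ⟨i, Finset.mem_univ i⟩ h
    obtain ⟨i₀, -, hi₀⟩ := Finset.exists_max_image Finset.univ (fun i => (b i).natAbs) hk
    have hmax : ∀ i, (b i).natAbs ≤ (b i₀).natAbs := fun i => hi₀ i (Finset.mem_univ i)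
    have hbne : b i₀ ≠ 0 := by
      intro h
      apply hb0
      funext i
      have := hmax i
      rw [h] at this
      simpa using this
    have hbr : ∀ i, (b i).natAbs ≤ r := fun i => (natAbs_le_supLen b i).trans hb
    let ψ : (Fin k → ℤ) →+ ℤ :=
      { toFun := fun u => ∑ i, (u i * b i₀ - u i₀ * b i) * (W : ℤ) ^ (i : ℕ)
        map_zero' := by simp
        map_add' := fun u v => by
          rw [← Finset.sum_add_distrib]
          exact Finset.sum_congr rfl fun i _ => by rw [Pi.add_apply, Pi.add_apply]; ring }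
    let θ : (Fin k → ℤ) →+ ZMod (b i₀).natAbs :=
      (Int.castAddHom (ZMod (b i₀).natAbs)).comp (Pi.evalAddMonoidHom (fun _ : Fin k => ℤ) i₀)
    have hdig : ∀ u : Fin k → ℤ, supLen u ≤ 6 * r → ∀ i,
        2 * (u i * b i₀ - u i₀ * b i).natAbs < W := by
      intro u hu i
      have h1 := (natAbs_le_supLen u i).trans hu
      have h2 := (natAbs_le_supLen u i₀).trans hu
      have h3 : (u i * b i₀ - u i₀ * b i).natAbs ≤ (u i * b i₀).natAbs + (u i₀ * b i).natAbs :=
        Int.natAbs_sub_le _ _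
      rw [Int.natAbs_mul, Int.natAbs_mul] at h3
      have h4 : (u i).natAbs * (b i₀).natAbs ≤ 6 * r * r := Nat.mul_le_mul h1 (hbr i₀)
      have h5 : (u i₀).natAbs * (b i).natAbs ≤ 6 * r * r := Nat.mul_le_mul h2 (hbr i)
      have h6 : 6 * r * r = 6 * r ^ 2 := by ring
      omega
    refine ⟨ψ, (b i₀).natAbs, θ, ?_, hbr i₀, ?_, ?_, ?_, ?_⟩
    · exact Nat.one_le_iff_ne_zero.mpr (fun h => hbne (Int.natAbs_eq_zero.mp h))
    · show ∑ i, (b i * b i₀ - b i₀ * b i) * (W : ℤ) ^ (i : ℕ) = 0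
      apply Finset.sum_eq_zero
      intro i _
      ring
    · show ((b i₀ : ℤ) : ZMod (b i₀).natAbs) = 0
      rw [ZMod.intCast_zmod_eq_zero_iff_dvd]
      exact Int.natAbs_dvd.mpr dvd_rfl
    · intro u hu
      have := (digits_lemma W k _ (hdig u hu)).1
      show (∑ i, (u i * b i₀ - u i₀ * b i) * (W : ℤ) ^ (i : ℕ)).natAbs ≤ W ^ k
      omega
    · intro u hu hψ hθ
      have h1 := (digits_lemma W k _ (hdig u hu)).2 hψ
      have h2 : ((u i₀ : ℤ) : ZMod (b i₀).natAbs) = 0 := hθ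
      rw [ZMod.intCast_zmod_eq_zero_iff_dvd] at h2
      obtain ⟨t, ht⟩ := Int.natAbs_dvd.mp h2
      refine AddSubgroup.mem_zmultiples_iff.mpr ⟨t, ?_⟩
      funext i
      have h3 : u i * b i₀ - u i₀ * b i = 0 := congrFun h1 i
      rw [Pi.smul_apply, smul_eq_mul]
      apply mul_right_cancel₀ hbne
      rw [ht] at h3
      linarith

end digits

section primes

open Real Filter

lemma exists_theta_bound : ∃ T₀ : ℕ, ∀ n : ℕ, T₀ ≤ n → (n : ℝ) / 4 ≤ Chebyshev.theta n := by
  have h1 : ∀ᶠ x : ℝ in atTop, Real.log x ≤ (1 / 20) * x ^ (1 / 2 : ℝ) := by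
    have h := (isLittleO_log_rpow_atTop (r := 1 / 2) (by norm_num)).bound
      (show (0:ℝ) < 1 / 20 by norm_num)
    filter_upwards [h, eventually_ge_atTop 1] with x hx hx1
    rw [Real.norm_eq_abs, Real.norm_eq_abs, abs_of_nonneg (Real.log_nonneg hx1),
      abs_of_nonneg (Real.rpow_nonneg (by linarith) _)] at hx
    exact hx
  have h2 : ∀ᶠ n : ℕ in atTop, Real.log (n : ℝ) ≤ (1 / 20) * (n : ℝ) ^ (1 / 2 : ℝ) :=
    tendsto_natCast_atTop_atTop.eventually h1
  obtain ⟨T₀, hT₀⟩ := eventually_atTop.mp h2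
  refine ⟨max T₀ 100, ?_⟩
  intro n hn
  have hnT : T₀ ≤ n := (le_max_left _ _).trans hn
  have hn100 : 100 ≤ n := (le_max_right _ _).trans hn
  have h3 := hT₀ n hnT
  have h4 := Chebyshev.theta_ge n
  have hn' : (100:ℝ) ≤ n := by exact_mod_cast hn100
  rw [← Real.sqrt_eq_rpow] at h3
  have hs : √(n:ℝ) * √(n:ℝ) = n := Real.mul_self_sqrt (by linarith)
  have hs0 : 0 ≤ √(n:ℝ) := Real.sqrt_nonneg _
  have hs10 : √(n:ℝ) ≤ n / 10 := by
    have : (10:ℝ) ≤ √(n:ℝ) := by
      rw [show (10:ℝ) = √(100:ℝ) by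
        rw [show (100:ℝ) = 10 ^ 2 by norm_num, Real.sqrt_sq (by norm_num)]]
      exact Real.sqrt_le_sqrt hn'
    nlinarith
  have h5 : Real.log ((n:ℝ) + 1) ≤ n / 20 := by
    have h6 : Real.log ((n:ℝ) + 1) ≤ Real.log (n * 2) := by
      apply Real.log_le_log (by linarith) (by linarith)
    rw [Real.log_mul (by linarith) (by norm_num)] at h6
    have h7 : Real.log 2 ≤ 1 := by
      have := Real.log_two_lt_d9; linarith
    nlinarith
  have h8 : 2 * √(n:ℝ) * Real.log n ≤ n / 10 := by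
    calc 2 * √(n:ℝ) * Real.log n ≤ 2 * √(n:ℝ) * ((1 / 20) * √(n:ℝ)) := by
          apply mul_le_mul_of_nonneg_left h3 (by positivity)
      _ = (√(n:ℝ) * √(n:ℝ)) / 10 := by ring
      _ = n / 10 := by rw [hs]
  have h9 : 0.6931471803 < Real.log 2 := Real.log_two_gt_d9
  nlinarith

/-- There is a small prime dividing none of the given nonzero integers. -/
theorem exists_good_prime : ∃ c : ℝ, 0 < c ∧ ∀ (D : Finset ℤ) (B : ℕ), 2 ≤ B →
    (∀ z ∈ D, z.natAbs ≤ B) →
    ∃ m : ℕ, m.Prime ∧ (m : ℝ) ≤ c * (D.card + 1) * Real.log B ∧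
      ∀ z ∈ D, z ≠ 0 → ¬ ((m : ℤ) ∣ z) := by
  classical
  obtain ⟨T₀, hT₀⟩ := exists_theta_bound
  refine ⟨2 * T₀ + 12, by positivity, ?_⟩
  intro D B hB hD
  have hlogB : (1 / 2 : ℝ) ≤ Real.log B := by
    have h1 : Real.log 2 ≤ Real.log B :=
      Real.log_le_log (by norm_num) (by exact_mod_cast hB)
    have := Real.log_two_gt_d9
    linarith
  set X : ℝ := (2 * T₀ + 12) * (D.card + 1) * Real.log B with hX
  have hX1 : (T₀ : ℝ) + 6 ≤ X := by
    have h2 : (1:ℝ) ≤ (D.card : ℝ) + 1 := by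
      have : (0:ℝ) ≤ (D.card : ℝ) := Nat.cast_nonneg _
      linarith
    have h3 : (2 * (T₀:ℝ) + 12) * 1 ≤ (2 * T₀ + 12) * (D.card + 1) :=
      mul_le_mul_of_nonneg_left h2 (by positivity)
    calc (T₀ : ℝ) + 6 = (2 * (T₀:ℝ) + 12) * 1 * (1 / 2) := by ring
      _ ≤ (2 * T₀ + 12) * (D.card + 1) * Real.log B := by
          apply mul_le_mul h3 hlogB (by norm_num) (by positivity)
  by_contra hcon
  push Not at hcon
  set T : ℕ := ⌊X⌋₊ with hT
  have hXpos : 0 ≤ X := by
    have : (0:ℝ) ≤ T₀ := Nat.cast_nonneg _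
    linarith
  have hTX : (T : ℝ) ≤ X := Nat.floor_le hXpos
  have hXT : X < T + 1 := Nat.lt_floor_add_one X
  have hTT₀ : T₀ ≤ T := by
    apply Nat.le_floor
    linarith
  -- the product of the nonzero elements
  set P : ℕ := ∏ z ∈ D.filter (fun z => z ≠ 0), z.natAbs with hP
  have hPpos : 0 < P := by
    apply Finset.prod_pos
    intro z hz
    exact Int.natAbs_pos.mpr (Finset.mem_filter.mp hz).2
  have hPle : P ≤ B ^ D.card := by
    calc P ≤ ∏ z ∈ D.filter (fun z => z ≠ 0), B := by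
          apply Finset.prod_le_prod'
          intro z hz
          exact hD z (Finset.mem_filter.mp hz).1
      _ = B ^ (D.filter (fun z => z ≠ 0)).card := by rw [Finset.prod_const]
      _ ≤ B ^ D.card := Nat.pow_le_pow_right (by omega) (Finset.card_filter_le _ _)
  have hdvd : primorial T ∣ P := by
    unfold primorial
    apply Finset.prod_primes_dvd
    · intro p hp
      exact (Finset.mem_filter.mp hp).2.prime
    · intro p hp
      obtain ⟨hp1, hp2⟩ := Finset.mem_filter.mp hp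
      have hpT : p ≤ T := by
        have := Finset.mem_range.mp hp1
        omega
      have hpX : (p : ℝ) ≤ X := le_trans (by exact_mod_cast hpT) hTX
      obtain ⟨z, hz, hz0, hpz⟩ := hcon p hp2 hpX
      have h4 : z.natAbs ∣ P := Finset.dvd_prod_of_mem _ (Finset.mem_filter.mpr ⟨hz, hz0⟩)
      exact (Int.natCast_dvd.mp hpz).trans h4
  have hle : primorial T ≤ B ^ D.card := (Nat.le_of_dvd hPpos hdvd).trans hPle
  have htheta : Chebyshev.theta T ≤ D.card * Real.log B := by
    rw [Chebyshev.theta_eq_log_primorial, Nat.floor_natCast]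
    have h5 : (primorial T : ℝ) ≤ (B : ℝ) ^ D.card := by exact_mod_cast hle
    calc Real.log (primorial T) ≤ Real.log ((B : ℝ) ^ D.card) := by
          apply Real.log_le_log _ h5
          exact_mod_cast primorial_pos T
      _ = D.card * Real.log B := by rw [Real.log_pow]
  have h6 := hT₀ T hTT₀
  -- contradiction
  have h7 : X ≤ 4 * (D.card * Real.log B) + 1 := by linarith
  have h8 : X = (2 * T₀ + 12) * (D.card * Real.log B) + (2 * T₀ + 12) * Real.log B := by
    rw [hX]; ring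
  have h9 : (0:ℝ) ≤ D.card * Real.log B := by positivity
  have h10 : (0:ℝ) ≤ T₀ := Nat.cast_nonneg _
  nlinarith

end primes

end Pool.Agent.R634
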