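import Mathlib
import Pool.Agent.R634.WreathPrime

/-!
# A `k`-independent upper bound for the conjugacy depth of `R ≀ ℤ^k`, continued
-/

namespace Pool.Agent.R634

open Finsupp

/-- The size of the finite abelian quotient needed: `O(w² r log W)`. -/
theorem depth_prime_bound : ∃ c : ℝ, 0 < c ∧ ∀ {R : Type*} [AddCommGroup R] {N : R → ℕ}
    (_ : IsSize N) {k : ℕ} (_ : 1 ≤ k) {x y : Wreath R (Fin k → ℤ)} {r : ℕ} (_ : 1 ≤ r)
    (_ : wt N x.lamp ≤ r) (_ : wt N y.lamp ≤ r)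
    (_ : supLen x.pos ≤ r) (_ : ∀ u ∈ x.lamp.support, supLen u ≤ r)
    (_ : ∀ u ∈ y.lamp.support, supLen u ≤ r) (_ : x.pos = y.pos) (_ : ¬ IsConj x y)
    {R' : Type} [AddCommGroup R'] [Finite R'] (q : R →+ R')
    (_ : ∀ z, N z ≤ 2 * r → q z = 0 → z = 0),
    ∃ D : ℕ, (D : ℝ) ≤ c * k * r ^ 3 * Real.log (24 * r ^ 2 + 1) ∧
      depth x y ≤ ((Nat.card R' ^ D * D : ℕ) : ℕ∞) := by
  classical
  obtain ⟨c, hc, hgood⟩ := exists_good_prime
  refine ⟨4 * c, by positivity, ?_⟩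
  intro R _ N hN k hk x y r hr hx1 hy1 hx2 hx3 hy3 hpos hnc R' _ _ q hq
  obtain ⟨f, b⟩ := x
  obtain ⟨f', b'⟩ := y
  simp only at hpos hx1 hx2 hx3 hy1 hy3
  subst hpos
  obtain ⟨ψ, β, θ, hβ1, hβr, hψb, hθb, hψB, hψθ⟩ := exists_functional hr hx2
  obtain ⟨Δ, hΔcard, hΔ, hsep⟩ := separate hN (isLen_supLen k) hx1 hy1 hx3 hy3 hnc
  set W : ℕ := 24 * r ^ 2 + 1 with hW
  have hW2 : 2 ≤ W ^ k := by
    have h1 : 25 ≤ W := by
      have : 1 ≤ r ^ 2 := Nat.one_le_pow _ _ hr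
      omega
    calc 2 ≤ W := by omega
      _ = W ^ 1 := (pow_one _).symm
      _ ≤ W ^ k := Nat.pow_le_pow_right (by omega) hk
  obtain ⟨m, hm, hmle, hmD⟩ := hgood (Δ.image ψ) (W ^ k) hW2 (by
    intro z hz
    obtain ⟨u, hu, rfl⟩ := Finset.mem_image.mp hz
    exact hψB u (hΔ u hu))
  have : NeZero m := ⟨hm.ne_zero⟩
  have : NeZero β := ⟨by omega⟩
  let Φ : (Fin k → ℤ) →+ ZMod m × ZMod β := ((Int.castAddHom (ZMod m)).comp ψ).prod θ
  have hcardA : Nat.card (ZMod m × ZMod β) = m * β := by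
    rw [Nat.card_prod, Nat.card_eq_fintype_card, ZMod.card, Nat.card_eq_fintype_card, ZMod.card]
  have h := hsep R' (ZMod m × ZMod β) q Φ ?_ ?_ hq
  · refine ⟨m * β, ?_, ?_⟩
    · have h1 : ((Δ.image ψ).card : ℝ) + 1 ≤ 4 * (r : ℝ) ^ 2 := by
        have h2 : (Δ.image ψ).card ≤ r + r * (2 * r) := Finset.card_image_le.trans hΔcard
        have h3 : (Δ.image ψ).card + 1 ≤ 4 * r ^ 2 := by nlinarith
        exact_mod_cast h3
      have hlogW : Real.log ((W ^ k : ℕ) : ℝ) = k * Real.log (24 * r ^ 2 + 1) := by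
        rw [hW]
        push_cast
        rw [Real.log_pow]
      have hlog0 : 0 ≤ Real.log (24 * (r:ℝ) ^ 2 + 1) := by
        apply Real.log_nonneg
        nlinarith [sq_nonneg (r:ℝ)]
      rw [hlogW] at hmle
      have hβ' : (β : ℝ) ≤ r := by exact_mod_cast hβr
      have hr0 : (0:ℝ) ≤ r := Nat.cast_nonneg _
      have hk0 : (0:ℝ) ≤ k := Nat.cast_nonneg _
      have hm' : (m : ℝ) ≤ c * (4 * (r:ℝ) ^ 2) * (k * Real.log (24 * r ^ 2 + 1)) := by
        refine hmle.trans ?_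
        apply mul_le_mul_of_nonneg_right _ (by positivity)
        exact mul_le_mul_of_nonneg_left h1 hc.le
      push_cast
      calc (m : ℝ) * β ≤ (c * (4 * (r:ℝ) ^ 2) * (k * Real.log (24 * r ^ 2 + 1))) * r := by
            apply mul_le_mul hm' hβ' (Nat.cast_nonneg _) (by positivity)
        _ = 4 * c * k * r ^ 3 * Real.log (24 * r ^ 2 + 1) := by ring
    · have h2 := depth_le_of_quot q Φ h
      rwa [hcardA] at h2
  · show ((ψ b : ZMod m), θ b) = 0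
    rw [hψb, hθb]
    simp
  · intro u hu hu0
    have h1 : ((ψ u : ZMod m), θ u) = (0, 0) := hu0
    rw [Prod.mk.injEq] at h1
    obtain ⟨h2, h3⟩ := h1
    rw [ZMod.intCast_zmod_eq_zero_iff_dvd] at h2
    apply hψθ u (hΔ u hu) _ h3
    by_contra hne
    exact hmD (ψ u) (Finset.mem_image_of_mem _ hu) hne h2

theorem conjDepth_prime {R : Type*} [AddCommGroup R] {N : R → ℕ} (hN : IsSize N) {k : ℕ}
    (hk : 1 ≤ k) {S : Set (Wreath R (Fin k → ℤ))} (hS : S.Finite) :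
    ∃ (ρ : ℕ) (C : ℝ), 1 ≤ ρ ∧ 0 < C ∧ ∀ n : ℕ, 1 ≤ n → ∃ D : ℕ, 1 ≤ D ∧
      (D : ℝ) ≤ C * n ^ 3 * Real.log (n + 1) ∧
      ∀ (R' : Type) [AddCommGroup R'] [Finite R'] (q : R →+ R'),
      (∀ z, N z ≤ 2 * (ρ * n) → q z = 0 → z = 0) →
      conjDepth S n ≤ ((Nat.card R' ^ D * D : ℕ) : ℕ∞) := by
  obtain ⟨ρ, hρ, hball⟩ := ball_bound hN (isLen_supLen k) hS
  obtain ⟨c, hc, hdepth⟩ := depth_prime_bound
  -- the constant
  have hlog2 : 0 < Real.log 2 := Real.log_pos (by norm_num)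
  set L : ℝ := Real.log (25 * ρ ^ 2) / Real.log 2 + 2 with hL
  have hLpos : 0 < L := by
    have : 0 ≤ Real.log (25 * (ρ:ℝ) ^ 2) := by
      apply Real.log_nonneg
      have : (1:ℝ) ≤ ρ := by exact_mod_cast hρ
      nlinarith
    positivity
  set C : ℝ := c * k * ρ ^ 3 * L + (2 * ρ + 1) / Real.log 2 with hC
  have hCpos : 0 < C := by positivity
  refine ⟨ρ, C, hρ, hCpos, ?_⟩
  intro n hn
  have hn1 : (1:ℝ) ≤ n := by exact_mod_cast hn
  have hρ1 : (1:ℝ) ≤ ρ := by exact_mod_cast hρ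
  have hlogn : Real.log 2 ≤ Real.log ((n:ℝ) + 1) :=
    Real.log_le_log (by norm_num) (by linarith)
  have hn3 : (1:ℝ) ≤ (n:ℝ) ^ 3 := one_le_pow₀ hn1
  have hlog0 : 0 ≤ Real.log ((n:ℝ) + 1) := Real.log_nonneg (by linarith)
  have hX0 : 0 ≤ C * n ^ 3 * Real.log (n + 1) := mul_nonneg (by positivity) hlog0
  have hkey : c * k * ((ρ * n : ℕ) : ℝ) ^ 3 * Real.log (24 * ((ρ * n : ℕ) : ℝ) ^ 2 + 1) ≤
      c * k * ρ ^ 3 * L * n ^ 3 * Real.log (n + 1) := by
    have h1 : Real.log (24 * ((ρ * n : ℕ) : ℝ) ^ 2 + 1) ≤ L * Real.log (n + 1) := by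
      have h2 : 24 * ((ρ * n : ℕ) : ℝ) ^ 2 + 1 ≤ (25 * (ρ:ℝ) ^ 2) * ((n:ℝ) + 1) ^ 2 := by
        push_cast
        have h3 : (1:ℝ) ≤ (ρ:ℝ) ^ 2 * (n:ℝ) ^ 2 := by
          have := one_le_pow₀ (n := 2) hρ1
          have := one_le_pow₀ (n := 2) hn1
          nlinarith
        have h4 : (n:ℝ) ^ 2 ≤ ((n:ℝ) + 1) ^ 2 := by nlinarith
        have h5 : (ρ:ℝ) ^ 2 * (n:ℝ) ^ 2 ≤ (ρ:ℝ) ^ 2 * ((n:ℝ) + 1) ^ 2 :=
          mul_le_mul_of_nonneg_left h4 (by positivity)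
        nlinarith
      have h6 : Real.log (24 * ((ρ * n : ℕ) : ℝ) ^ 2 + 1) ≤
          Real.log ((25 * (ρ:ℝ) ^ 2) * ((n:ℝ) + 1) ^ 2) :=
        Real.log_le_log (by positivity) h2
      rw [Real.log_mul (by positivity) (by positivity), Real.log_pow] at h6
      have h7 : Real.log (25 * (ρ:ℝ) ^ 2) ≤
          Real.log (25 * ρ ^ 2) / Real.log 2 * Real.log (n + 1) := by
        have h8 : 0 ≤ Real.log (25 * (ρ:ℝ) ^ 2) / Real.log 2 := by
          apply div_nonneg _ hlog2.le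
          apply Real.log_nonneg
          nlinarith
        calc Real.log (25 * (ρ:ℝ) ^ 2) = Real.log (25 * ρ ^ 2) / Real.log 2 * Real.log 2 := by
              field_simp
          _ ≤ _ := mul_le_mul_of_nonneg_left hlogn h8
      rw [hL]
      push_cast at h6 ⊢
      linarith
    calc c * k * ((ρ * n : ℕ) : ℝ) ^ 3 * Real.log (24 * ((ρ * n : ℕ) : ℝ) ^ 2 + 1)
        ≤ c * k * ((ρ * n : ℕ) : ℝ) ^ 3 * (L * Real.log (n + 1)) := by
          apply mul_le_mul_of_nonneg_left h1 (by positivity)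
      _ = c * k * ρ ^ 3 * L * n ^ 3 * Real.log (n + 1) := by push_cast; ring
  refine ⟨⌊C * n ^ 3 * Real.log (n + 1)⌋₊, ?_, Nat.floor_le hX0, ?_⟩
  · apply Nat.le_floor
    have h1 : (2 * (ρ:ℝ) + 1) / Real.log 2 ≤ C := by
      rw [hC]
      have : 0 ≤ c * k * ρ ^ 3 * L := by positivity
      linarith
    have h2 : (2 * (ρ:ℝ) + 1) / Real.log 2 * n ^ 3 * Real.log (n + 1) ≤
        C * n ^ 3 * Real.log (n + 1) := by
      apply mul_le_mul_of_nonneg_right _ hlog0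
      exact mul_le_mul_of_nonneg_right h1 (by positivity)
    have h3 : (2 * (ρ:ℝ) + 1) ≤ (2 * (ρ:ℝ) + 1) / Real.log 2 * n ^ 3 * Real.log (n + 1) := by
      calc (2 * (ρ:ℝ) + 1) = (2 * (ρ:ℝ) + 1) / Real.log 2 * 1 * Real.log 2 := by field_simp
        _ ≤ _ := by
          apply mul_le_mul _ hlogn hlog2.le (by positivity)
          apply mul_le_mul_of_nonneg_left hn3 (by positivity)
    push_cast
    linarith
  · intro R' _ _ q hq
    have hcR : 1 ≤ Nat.card R' := Nat.card_pos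
    set D : ℕ := ⌊C * n ^ 3 * Real.log (n + 1)⌋₊ with hD
    have hmono : ∀ D' : ℕ, (D' : ℝ) ≤ C * n ^ 3 * Real.log (n + 1) → D' ≤ D :=
      fun D' h => Nat.le_floor h
    apply conjDepth_le
    intro x hx y hy hnc
    obtain ⟨hx1, hx2, hx3⟩ := hball n x hx
    obtain ⟨hy1, hy2, hy3⟩ := hball n y hy
    by_cases hpos : x.pos = y.pos
    · obtain ⟨D', hD', hle⟩ := hdepth hN hk (Nat.mul_pos hρ hn) hx1 hy1 hx2 hx3 hy3 hpos hnc q hq
      have h1 : D' ≤ D := by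
        apply hmono
        refine hD'.trans (hkey.trans ?_)
        apply mul_le_mul_of_nonneg_right _ hlog0
        apply mul_le_mul_of_nonneg_right _ (by positivity)
        rw [hC]
        have : 0 ≤ (2 * (ρ:ℝ) + 1) / Real.log 2 := by positivity
        linarith
      refine hle.trans ?_
      exact_mod_cast Nat.mul_le_mul (Nat.pow_le_pow_right hcR h1) h1
    · refine (depth_le_of_pos_ne hx2 hy2 hpos).trans ?_
      have h1 : 2 * (ρ * n) + 1 ≤ D := by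
        apply hmono
        have h2 : (2 * (ρ:ℝ) + 1) * n ≤ C * n ^ 3 * Real.log (n + 1) := by
          have h3 : (2 * (ρ:ℝ) + 1) / Real.log 2 ≤ C := by
            rw [hC]
            have : 0 ≤ c * k * ρ ^ 3 * L := by positivity
            linarith
          have h4 : (n:ℝ) ≤ n ^ 3 := by nlinarith [sq_nonneg ((n:ℝ) - 1)]
          calc (2 * (ρ:ℝ) + 1) * n = (2 * (ρ:ℝ) + 1) / Real.log 2 * n * Real.log 2 := by
                field_simp
            _ ≤ C * n ^ 3 * Real.log (n + 1) := by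
                apply mul_le_mul _ hlogn hlog2.le (by positivity)
                exact mul_le_mul h3 h4 (by positivity) hCpos.le
        push_cast
        nlinarith
      have h2 : 1 ≤ Nat.card R' ^ D := Nat.one_le_pow _ _ hcR
      exact_mod_cast h1.trans (Nat.le_mul_of_pos_left _ h2)

end Pool.Agent.R634
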